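import Pool.Agent.K7.H63.HO.Core

/-!
# Relations between the values of families of functions at tuples of points in small balls, for a compact set
-/

set_option autoImplicit false
set_option linter.unusedSectionVars false

open NumberField

namespace Pool.Agent.K7.H63.HO

open Pool.Agent.R349

/-- the local theorem on a compact set -/
theorem coreL {κ : Type} [Fintype κ] (m r g d : ℕ) (f : Fin r → κ → ℂ → ℂ) (L : Set ℂ) (hL : IsCompact L)
    (han : ∀ j y, ∀ t ∈ L, AnalyticAt ℂ (f j y) t) (hind : ∀ j, ∀ t ∈ L, Pool.Agent.Y124.LocInd (f j) t) (A δ : ℝ)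
    (hδ : 0 < δ) :
    ∃ B C T₀ : ℝ, 0 ≤ B ∧ 0 ≤ C ∧ 2 ≤ T₀ ∧ ∀ (K : Type) [Field K] [NumberField K], Module.finrank ℚ K ≤ m →
      ∀ (ι : K →+* ℂ) (ξ : Fin g → ℂ) (T : ℝ), T₀ ≤ T → ∀ Y : Fin r → Finset K,
        (∀ j, ∀ x ∈ Y j, ι x ∈ L ∧ Y120.HtLe K T x) →
        (∀ j, ∀ x ∈ Y j, ∀ y ∈ Y j, ‖ι x - ι y‖ ≤ T ^ (-δ)) →
        ∀ E : Finset (Fin r → K), (∀ x ∈ E, (∀ j, x j ∈ Y j) ∧
          ∃ P : MvPolynomial (Fin r × κ) ℂ, (∀ u, P.degreeOf u ≤ d) ∧
          (∀ s, ∃ c : Fin g → 𝓞 K, (∀ i (φ : K →+* ℂ), ‖φ (c i)‖ ≤ T ^ A) ∧ P.coeff s = ∑ i, ξ i * ι (c i)) ∧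
          ∃ s₀, P.coeff s₀ ≠ 0 ∧ ‖MvPolynomial.aeval (fun u : Fin r × κ => f u.1 u.2 (ι (x u.1))) P‖ ≤
            T ^ (-B) * ‖P.coeff s₀‖) →
        (E.card : ℝ) ≤ C * ∑ j, ∏ i ∈ Finset.univ.erase j, ((Y i).card : ℝ) := by
  classical
  obtain ⟨B, C, T₀, hB, hC, hT₀, H⟩ := mainL m r g d f L hL han hind A δ hδ
  refine ⟨B, C, T₀, hB, hC, hT₀, ?_⟩
  intro K _ _ hm ι ξ T hT Y hY hYd E hE
  have hsum0 : 0 ≤ ∑ j, ∏ i ∈ Finset.univ.erase j, ((Y i).card : ℝ) :=
    Finset.sum_nonneg fun _ _ => Finset.prod_nonneg fun _ _ => Nat.cast_nonneg _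
  by_cases hne : ∃ j, Y j = ∅
  · obtain ⟨j, hj⟩ := hne
    have hE0 : E = ∅ := by
      rw [Finset.eq_empty_iff_forall_notMem]
      intro x hx
      have := (hE x hx).1 j
      rw [hj] at this
      exact absurd this (Finset.notMem_empty _)
    rw [hE0, Finset.card_empty, Nat.cast_zero]
    exact mul_nonneg hC hsum0
  push Not at hne
  have hτ : ∀ j, ∃ τ : L, ∀ x ∈ Y j, ‖ι x - (τ : ℂ)‖ ≤ T ^ (-δ) := by
    intro j
    obtain ⟨y, hy⟩ := hne j
    exact ⟨⟨ι y, (hY j y hy).1⟩, fun x hx => hYd j x hx y hy⟩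
  choose τ hτ' using hτ
  rw [← MgR_eq']
  exact H K hm ι ξ T hT τ Y (fun j x hx => ⟨hτ' j x hx, (hY j x hx).2⟩) E hE

section
variable {σ : Type} [Fintype σ] [DecidableEq σ]

/-- a polynomial with given monomials -/
noncomputable def RG (e : ℕ → (σ →₀ ℕ)) (m : ℕ) (c : ℕ → ℂ) : MvPolynomial σ ℂ :=
  ∑ k ∈ Finset.range (m + 1), MvPolynomial.monomial (e k) (c k)

lemma RG_coeff (e : ℕ → (σ →₀ ℕ)) (he : Function.Injective e) (m : ℕ) (c : ℕ → ℂ) (k : ℕ) (hk : k ≤ m) :
    (RG e m c).coeff (e k) = c k := by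
  classical
  unfold RG
  rw [MvPolynomial.coeff_sum, Finset.sum_eq_single k]
  · rw [MvPolynomial.coeff_monomial, if_pos rfl]
  · intro k' _ hne
    rw [MvPolynomial.coeff_monomial, if_neg]
    exact fun h => hne (he h)
  · intro h
    exact absurd (Finset.mem_range.2 (by omega)) h

lemma RG_coeff' (e : ℕ → (σ →₀ ℕ)) (m : ℕ) (c : ℕ → ℂ) (s : σ →₀ ℕ) (hs : ∀ k, k ≤ m → e k ≠ s) :
    (RG e m c).coeff s = 0 := by
  classical
  unfold RG
  rw [MvPolynomial.coeff_sum]
  refine Finset.sum_eq_zero fun k hk => ?_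
  rw [MvPolynomial.coeff_monomial, if_neg (hs k (by have := Finset.mem_range.1 hk; omega))]

lemma RG_degree (e : ℕ → (σ →₀ ℕ)) (m d : ℕ) (hd : ∀ k, k ≤ m → ∀ v, e k v ≤ d) (c : ℕ → ℂ) (v : σ) :
    (RG e m c).degreeOf v ≤ d := by
  classical
  rw [MvPolynomial.degreeOf_le_iff]
  intro s hs
  by_contra hlt
  rw [MvPolynomial.mem_support_iff] at hs
  apply hs
  refine RG_coeff' e m c s fun k hk h => hlt ?_
  rw [← h]
  exact hd k hk v

end

/-- algebraic multiples of `θ f_(y₂)` among the values of `f_(y₁)` at rational points; `y₂ = none` stands for the constant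
function `1` -/
theorem ratioValue {κ : Type} [Fintype κ] (m : ℕ) (f : κ → ℂ → ℂ) (α β : ℝ)
    (han : ∀ y, ∀ t : ℝ, α ≤ t → t ≤ β → AnalyticAt ℂ (f y) (t : ℂ))
    (hind : ∀ t : ℝ, α ≤ t → t ≤ β → Pool.Agent.Y124.LocInd f (t : ℂ)) (A δ : ℝ) (hδ : 0 < δ) :
    ∃ (C : ℕ) (T₀ : ℝ), ∀ (y : κ) (y' : Option κ), y' ≠ some y → ∀ (θ : ℂ), θ ≠ 0 → ∀ T : ℝ, T₀ ≤ T → ∀ Y : Finset ℚ,
      (∀ x ∈ Y, α ≤ (x : ℝ) ∧ (x : ℝ) ≤ β ∧ (x.den : ℝ) ≤ T) →
      (∀ x ∈ Y, ∀ x' ∈ Y, |(x : ℝ) - x'| ≤ T ^ (-δ)) →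
      {x : ℚ | x ∈ Y ∧ ∃ z : ℂ, (∃ p : Polynomial ℤ, p ≠ 0 ∧ p.natDegree ≤ m ∧
        (∀ i, |(p.coeff i : ℝ)| ≤ T ^ A) ∧ Polynomial.aeval z p = 0) ∧
        f y x = z * θ * y'.elim 1 fun y' => f y' x}.ncard ≤ C := by
  classical
  set c₀ : ℝ := |α| + |β| + 1 with hc₀
  have hc₀1 : 1 ≤ c₀ := by
    rw [hc₀]
    linarith [abs_nonneg β, abs_nonneg α]
  set L : Set ℂ := (fun x : ℝ => (x : ℂ)) '' Set.Icc α β with hL
  have hLc : IsCompact L := isCompact_Icc.image Complex.continuous_ofReal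
  obtain ⟨B, C, T₀, hB, hC, hT₀, H⟩ := coreL 1 1 (m + 1) m (fun _ => f) L hLc
    (fun _ y t ht => by obtain ⟨x, hx, rfl⟩ := ht; exact han y x hx.1 hx.2)
    (fun _ t ht => by obtain ⟨x, hx, rfl⟩ := ht; exact hind x hx.1 hx.2) |A| (δ / 2) (by positivity)
  refine ⟨⌈C⌉₊, max T₀ c₀, fun y y' hyy θ hθ T hT Y hY hYd => ?_⟩
  have hTT₀ : T₀ ≤ T := (le_max_left _ _).trans hT
  have hTc : c₀ ≤ T := (le_max_right _ _).trans hT
  have hT1 : 1 ≤ T := hc₀1.trans hTc
  have hTp : 0 < T := by linarith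
  set T' : ℝ := c₀ * T with hT'
  have hTT' : T ≤ T' := le_mul_of_one_le_left hTp.le hc₀1
  have hT'p : 0 < T' := by linarith
  set Bad : Finset ℚ := Y.filter fun x => ∃ z : ℂ, (∃ p : Polynomial ℤ, p ≠ 0 ∧ p.natDegree ≤ m ∧
    (∀ i, |(p.coeff i : ℝ)| ≤ T ^ A) ∧ Polynomial.aeval z p = 0) ∧
    f y x = z * θ * y'.elim 1 fun y' => f y' x with hBad
  have hBadS : {x : ℚ | x ∈ Y ∧ ∃ z : ℂ, (∃ p : Polynomial ℤ, p ≠ 0 ∧ p.natDegree ≤ m ∧
      (∀ i, |(p.coeff i : ℝ)| ≤ T ^ A) ∧ Polynomial.aeval z p = 0) ∧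
      f y x = z * θ * y'.elim 1 fun y' => f y' x} = (Bad : Set ℚ) := by
    ext a
    simp only [hBad, Finset.coe_filter, Set.mem_ofPred_eq]
  rw [hBadS, Set.ncard_coe_finset]
  have hcount := H ℚ (by simp) (algebraMap ℚ ℂ) (fun k : Fin (m + 1) => (θ⁻¹) ^ (k : ℕ)) T' (hTT₀.trans hTT')
    (fun _ : Fin 1 => Y) ?_ ?_ (Bad.image fun x => fun _ => x) ?_
  · have h1 : ∑ j : Fin 1, ∏ i ∈ Finset.univ.erase j, (((fun _ : Fin 1 => Y) i).card : ℝ) = 1 := by
      simp
    rw [h1, mul_one, Finset.card_image_of_injective _ (fun a b h => congrFun h 0)] at hcount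
    exact_mod_cast hcount.trans (Nat.le_ceil C)
  · intro _ x hx
    obtain ⟨h1, h2, h3⟩ := hY x hx
    have h4 : (algebraMap ℚ ℂ) x = ((x : ℝ) : ℂ) := by simp
    have h5 : |(x : ℝ)| ≤ c₀ := by
      rw [hc₀, abs_le]
      constructor
      · linarith [neg_abs_le α, abs_nonneg β]
      · linarith [le_abs_self β, abs_nonneg α]
    refine ⟨by rw [h4]; exact ⟨(x : ℝ), ⟨h1, h2⟩, rfl⟩, ?_⟩
    have h6 := htLe_rat ℚ hc₀1 hT1 x h5 h3
    simpa using h6
  · intro _ x hx x' hx'
    have h3 : (algebraMap ℚ ℂ) x - (algebraMap ℚ ℂ) x' = (((x : ℝ) - x' : ℝ) : ℂ) := by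
      simp
    rw [h3, Complex.norm_real, Real.norm_eq_abs]
    exact (hYd x hx x' hx').trans (rad_le hc₀1 hTc hδ)
  · intro w hw
    obtain ⟨x, hx, rfl⟩ := Finset.mem_image.1 hw
    rw [hBad, Finset.mem_filter] at hx
    obtain ⟨hxY, z, ⟨p, hp0, hpm, hpH, hpz⟩, hval⟩ := hx
    refine ⟨fun _ => hxY, ?_⟩
    set e : ℕ → ((Fin 1 × κ) →₀ ℕ) := fun k => Finsupp.single (0, y) k +
      y'.elim 0 (fun y' => Finsupp.single (0, y') (m - k)) with he
    have hey : ∀ k, e k (0, y) = k := by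
      intro k
      rw [he]
      cases y' with
      | none => simp
      | some y' =>
        have h1 : y' ≠ y := fun h => hyy (by rw [h])
        simp [Finsupp.single_apply, h1]
    have heinj : Function.Injective e := by
      intro k k' h
      rw [← hey k, h, hey]
    have hed : ∀ k, k ≤ m → ∀ v, e k v ≤ m := by
      intro k hk v
      rw [he]
      cases y' with
      | none =>
        simp only [Option.elim, add_zero, Finsupp.single_apply]
        split_ifs <;> omega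
      | some y' =>
        have h1 : y' ≠ y := fun h => hyy (by rw [h])
        simp only [Option.elim, Finsupp.add_apply, Finsupp.single_apply]
        by_cases h2 : ((0 : Fin 1), y) = v
        · have h3 : ¬ ((0 : Fin 1), y') = v := by
            rw [← h2]
            simpa using h1
          rw [if_pos h2, if_neg h3]
          omega
        · rw [if_neg h2]
          split_ifs <;> omega
    refine ⟨RG e m (fun k => (θ⁻¹) ^ k * (p.coeff k : ℂ)), RG_degree e m m hed _, ?_, ?_⟩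
    · intro s
      by_cases hs : ∃ k, k ≤ m ∧ e k = s
      · obtain ⟨k, hk, rfl⟩ := hs
        refine ⟨fun i => if i = ⟨k, by omega⟩ then ((p.coeff k : ℤ) : 𝓞 ℚ) else 0, fun i φ => ?_, ?_⟩
        · by_cases hi : i = ⟨k, by omega⟩
          · simp only [if_pos hi]
            have e1 : ((((p.coeff k : ℤ) : 𝓞 ℚ)) : ℚ) = ((p.coeff k : ℤ) : ℚ) := rfl
            rw [e1, map_intCast, Complex.norm_intCast]
            calc |((p.coeff k : ℤ) : ℝ)| ≤ T ^ A := hpH _
              _ ≤ T ^ |A| := Real.rpow_le_rpow_of_exponent_le hT1 (le_abs_self A)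
              _ ≤ T' ^ |A| := Real.rpow_le_rpow hTp.le hTT' (abs_nonneg A)
          · simp only [if_neg hi, map_zero, norm_zero]
            positivity
        · rw [RG_coeff e heinj m _ k hk, Finset.sum_eq_single ⟨k, by omega⟩]
          · simp only [if_true]
            congr 1
          · intro b _ hb
            simp only [if_neg hb]
            simp
          · intro h
            exact absurd (Finset.mem_univ _) h
      · push Not at hs
        refine ⟨fun _ => 0, fun i φ => ?_, ?_⟩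
        · simp only [map_zero, norm_zero]
          positivity
        · rw [RG_coeff' e m _ s hs]
          simp
    · obtain ⟨k, hk⟩ := Polynomial.support_nonempty.2 hp0
      have hkm : k ≤ m := (Polynomial.le_natDegree_of_mem_supp k hk).trans hpm
      refine ⟨e k, ?_, ?_⟩
      · rw [RG_coeff e heinj m _ k hkm]
        exact mul_ne_zero (pow_ne_zero _ (inv_ne_zero hθ)) (by exact_mod_cast Polynomial.mem_support_iff.1 hk)
      · set F : ℂ := y'.elim 1 fun y' => f y' (x : ℂ) with hF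
        have h4 : f y ((algebraMap ℚ ℂ) x) = z * θ * F := by
          rw [← hval]
          rfl
        have h6 : MvPolynomial.aeval (fun u : Fin 1 × κ => (fun _ => f) u.1 u.2 ((algebraMap ℚ ℂ) ((fun _ => x) u.1)))
            (RG e m (fun k => (θ⁻¹) ^ k * (p.coeff k : ℂ))) = 0 := by
          have h5 : ∀ k ∈ Finset.range (m + 1), MvPolynomial.aeval
              (fun u : Fin 1 × κ => (fun _ => f) u.1 u.2 ((algebraMap ℚ ℂ) ((fun _ => x) u.1)))
              (MvPolynomial.monomial (e k) ((θ⁻¹) ^ k * (p.coeff k : ℂ))) = F ^ m * ((p.coeff k : ℂ) * z ^ k) := by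
            intro k hk
            have hk' : k ≤ m := by have := Finset.mem_range.1 hk; omega
            rw [MvPolynomial.aeval_monomial]
            have h7 : ((e k).prod fun i n => (fun u : Fin 1 × κ => (fun _ => f) u.1 u.2
                ((algebraMap ℚ ℂ) ((fun _ => x) u.1))) i ^ n) = (z * θ * F) ^ k * F ^ (m - k) := by
              set w : Fin 1 × κ → ℂ := fun u : Fin 1 × κ => f u.2 ((algebraMap ℚ ℂ) x) with hw
              have hs : ∀ (u : Fin 1 × κ) (n : ℕ), (Finsupp.single u n).prod (fun i n => w i ^ n) = w u ^ n :=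
                fun u n => Finsupp.prod_single_index (pow_zero _)
              change (Finsupp.single ((0 : Fin 1), y) k + y'.elim 0 (fun y' => Finsupp.single ((0 : Fin 1), y') (m - k))).prod
                (fun i n => w i ^ n) = _
              rw [Finsupp.prod_add_index' (fun _ => pow_zero _) (fun _ _ _ => pow_add _ _ _), hs]
              have hw1 : w (0, y) = z * θ * F := h4
              rw [hw1]
              congr 1
              rw [hF]
              cases y' with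
              | none => simp
              | some y' =>
                simp only [Option.elim]
                rw [hs]
                rfl
            have h8 : F ^ m = F ^ k * F ^ (m - k) := by rw [← pow_add, Nat.add_sub_cancel' hk']
            rw [h7, h8, mul_pow, mul_pow, inv_pow, Algebra.algebraMap_self, RingHom.id_apply]
            field_simp
          rw [RG, map_sum, Finset.sum_congr rfl h5, ← Finset.mul_sum]
          have h9 : ∑ k ∈ Finset.range (m + 1), (p.coeff k : ℂ) * z ^ k = 0 := by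
            rw [← hpz, Polynomial.aeval_eq_sum_range' (Nat.lt_succ_of_le hpm)]
            refine Finset.sum_congr rfl fun k _ => ?_
            rw [zsmul_eq_mul]
          rw [h9, mul_zero]
        rw [h6, norm_zero]
        positivity

end Pool.Agent.K7.H63.HO
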