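import Pool.Agent.K7.H63.HO.Core
import Pool.Agent.Y549.PE.Core

/-!
# Integer polynomials in constants and in values of a family of functions at tuples of points in short intervals
-/

set_option autoImplicit false
set_option linter.unusedSectionVars false

open NumberField

namespace Pool.Agent.K7.H63.HO

open Pool.Agent.Y549.PE

/-- analyticity of the family `fam2` -/
theorem fam2_an (p S q : ℕ) (a : Fin p → ℂ) (ha : ∀ k, 0 ≤ (a k).re) (ρ : Fin q → ℂ) (hρ : ∀ k, 0 < (ρ k).re) :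
    ∀ (y : (Fin p × Fin S) ⊕ Fin q) (t : ℂ), 0 < t.re → AnalyticAt ℂ
      (Sum.elim (fun (y : Fin p × Fin S) (t : ℂ) => Hp y.2 (t + a y.1)) (fun (k : Fin q) (t : ℂ) => Be (ρ k) t) y) t := by
  rintro (⟨l, k⟩ | k) t ht
  · have h1 : AnalyticAt ℂ (fun t : ℂ => t + a l) t := by fun_prop
    have h2 := AnalyticAt.fun_comp (f := fun t : ℂ => t + a l) (H_an ((k : ℕ) + 1) (re_pos_add ht (ha l))) h1
    have h3 : (fun t => Hp k (t + a l)) = fun t => H ((k : ℕ) + 1) (t + a l) -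
        (if (k : ℕ) = 0 then Complex.digamma 1 else 0) := by
      funext t
      exact Hp_eq k _
    change AnalyticAt ℂ (fun t => Hp k (t + a l)) t
    rw [h3]
    exact h2.sub analyticAt_const
  · have hsum : 0 < (t + ρ k).re := re_pos_add ht (hρ k).le
    have h1 : AnalyticAt ℂ (fun t : ℂ => t + ρ k) t := by fun_prop
    have h2 := AnalyticAt.fun_comp (f := fun t : ℂ => t + ρ k)
      (Pool.Agent.Y771.RP.Gamma_analyticAt (ne_negNat hsum)) h1
    exact ((Pool.Agent.Y771.RP.Gamma_analyticAt (ne_negNat ht)).mul analyticAt_const).div h2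
      (Complex.Gamma_ne_zero (ne_negNat hsum))

variable {κ G : Type} [Fintype κ] [DecidableEq κ] [Fintype G] [DecidableEq G] {r d : ℕ}

/-- exponents -/
noncomputable def xs (e : Fin r → κ → Fin (d + 1)) : (Fin r × κ) →₀ ℕ := TH659.AQ.fs fun x : Fin r × κ => e x.1 x.2

lemma xs_inj : Function.Injective (xs (κ := κ) (r := r) (d := d)) := by
  intro e e' h
  have := TH659.AQ.fs_inj h
  funext j k
  exact congrFun this (j, k)

/-- the polynomial with the constants substituted -/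
noncomputable def cs (d : ℕ) (ξ : G → ℂ) (P : MvPolynomial (G ⊕ (Fin r × κ)) ℤ) : MvPolynomial (Fin r × κ) ℂ :=
  ∑ e : Fin r → κ → Fin (d + 1), MvPolynomial.monomial (xs e) (MvPolynomial.aeval ξ (Qe P e))

lemma cs_coeff (ξ : G → ℂ) (P : MvPolynomial (G ⊕ (Fin r × κ)) ℤ) (e : Fin r → κ → Fin (d + 1)) :
    (cs d ξ P).coeff (xs e) = MvPolynomial.aeval ξ (Qe P e) := by
  classical
  unfold cs
  rw [MvPolynomial.coeff_sum, Finset.sum_eq_single e]
  · rw [MvPolynomial.coeff_monomial, if_pos rfl]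
  · intro e' _ hne
    rw [MvPolynomial.coeff_monomial, if_neg]
    exact fun h => hne (xs_inj h)
  · intro h
    exact absurd (Finset.mem_univ _) h

lemma cs_coeff' (ξ : G → ℂ) (P : MvPolynomial (G ⊕ (Fin r × κ)) ℤ) (s : (Fin r × κ) →₀ ℕ)
    (hs : ∀ e : Fin r → κ → Fin (d + 1), xs e ≠ s) : (cs d ξ P).coeff s = 0 := by
  classical
  unfold cs
  rw [MvPolynomial.coeff_sum]
  refine Finset.sum_eq_zero fun e _ => ?_
  rw [MvPolynomial.coeff_monomial, if_neg (hs e)]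

lemma cs_degree (ξ : G → ℂ) (P : MvPolynomial (G ⊕ (Fin r × κ)) ℤ) (u : Fin r × κ) : (cs d ξ P).degreeOf u ≤ d := by
  classical
  rw [MvPolynomial.degreeOf_le_iff]
  intro s hs
  by_contra hlt
  rw [MvPolynomial.mem_support_iff] at hs
  apply hs
  refine cs_coeff' ξ P s fun e he => hlt ?_
  rw [← he]
  simp only [xs, TH659.AQ.fs, Finsupp.equivFunOnFinite_symm_apply_apply]
  omega

lemma cs_aeval (ξ : G → ℂ) (y : Fin r × κ → ℂ) (P : MvPolynomial (G ⊕ (Fin r × κ)) ℤ) (hP : ∀ z, P.degreeOf z ≤ d) :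
    MvPolynomial.aeval y (cs d ξ P) = MvPolynomial.aeval (Sum.elim ξ y) P := by
  classical
  rw [aeval_R (Sum.elim ξ y) P hP, cs, map_sum]
  refine Finset.sum_congr rfl fun e _ => ?_
  rw [MvPolynomial.aeval_monomial, Finsupp.prod_fintype _ _ (fun _ => pow_zero _), Fintype.prod_prod_type]
  rfl

/-- substitution of the constants -/
lemma subst_eq (ξ : G → ℂ) (P : MvPolynomial (G ⊕ (Fin r × κ)) ℤ) (hP : ∀ z, P.degreeOf z ≤ d) :
    MvPolynomial.aeval (Sum.elim (fun i => MvPolynomial.C (ξ i)) (fun u => MvPolynomial.X u) :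
      G ⊕ (Fin r × κ) → MvPolynomial (Fin r × κ) ℂ) P = cs d ξ P := by
  classical
  have h0 := aeval_R (Sum.elim (fun i => MvPolynomial.C (ξ i)) (fun u => MvPolynomial.X u) :
      G ⊕ (Fin r × κ) → MvPolynomial (Fin r × κ) ℂ) P hP
  have h00 : MvPolynomial.aeval (Sum.elim (fun i => MvPolynomial.C (ξ i)) (fun u => MvPolynomial.X u) :
      G ⊕ (Fin r × κ) → MvPolynomial (Fin r × κ) ℂ) P =
      @MvPolynomial.aeval ℤ (MvPolynomial (Fin r × κ) ℂ) (G ⊕ (Fin r × κ)) _ _ (Ring.toIntAlgebra _)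
        (Sum.elim (fun i => MvPolynomial.C (ξ i)) (fun u => MvPolynomial.X u)) P := by
    rw [MvPolynomial.aeval_def, MvPolynomial.aeval_def]
    congr 1
  rw [h00, h0, cs]
  refine Finset.sum_congr rfl fun e _ => ?_
  have h1 : @MvPolynomial.aeval ℤ (MvPolynomial (Fin r × κ) ℂ) G _ _ (Ring.toIntAlgebra _)
      (fun i => (Sum.elim (fun i => MvPolynomial.C (ξ i)) (fun u => MvPolynomial.X u) :
      G ⊕ (Fin r × κ) → MvPolynomial (Fin r × κ) ℂ) (Sum.inl i)) (Qe P e) =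
      MvPolynomial.C (MvPolynomial.aeval ξ (Qe P e)) := by
    generalize Qe P e = Q
    induction Q using MvPolynomial.induction_on with
    | C a => simp
    | add p q hp hq => rw [map_add, hp, hq, map_add, MvPolynomial.C_add]
    | mul_X p i hp =>
      rw [map_mul, hp, map_mul, MvPolynomial.aeval_X, MvPolynomial.aeval_X, MvPolynomial.C_mul]
      rfl
  rw [h1, MvPolynomial.monomial_eq, Finsupp.prod_fintype _ _ (fun _ => pow_zero _), Fintype.prod_prod_type]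
  rfl

/-- the value after the substitution of the constants -/
lemma aeval_subst (ξ : G → ℂ) (y : Fin r × κ → ℂ) (P : MvPolynomial (G ⊕ (Fin r × κ)) ℤ) :
    MvPolynomial.aeval y (MvPolynomial.aeval (Sum.elim (fun i => MvPolynomial.C (ξ i)) (fun u => MvPolynomial.X u) :
      G ⊕ (Fin r × κ) → MvPolynomial (Fin r × κ) ℂ) P) = MvPolynomial.aeval (Sum.elim ξ y) P := by
  induction P using MvPolynomial.induction_on with
  | C a => simp
  | add p q hp hq => rw [map_add, map_add, hp, hq, map_add]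
  | mul_X p i hp =>
    rw [map_mul, map_mul, hp, map_mul, MvPolynomial.aeval_X, MvPolynomial.aeval_X]
    cases i <;> simp

/-- a polynomial is zero if the coefficients with respect to the numbers are zero -/
lemma eq_zero_of_Qe (P : MvPolynomial (G ⊕ (Fin r × κ)) ℤ) (hP : ∀ z, P.degreeOf z ≤ d)
    (h : ∀ (e : Fin r → κ → Fin (d + 1)) (v : G → Fin (d + 1)), P.coeff (ex v e) = 0) : P = 0 := by
  classical
  ext s
  rw [MvPolynomial.coeff_zero]
  by_contra hs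
  have h1 : ∀ z, s z ≤ d := fun z =>
    ((MvPolynomial.degreeOf_le_iff.1 (hP z)) s (MvPolynomial.mem_support_iff.2 hs))
  apply hs
  have h2 : s = ex (fun i => ⟨s (Sum.inl i), Nat.lt_succ_of_le (h1 (Sum.inl i))⟩)
      (fun j k => ⟨s (Sum.inr (j, k)), Nat.lt_succ_of_le (h1 (Sum.inr (j, k)))⟩) := by
    ext z
    rcases z with i | ⟨j, k⟩
    · simp [ex, TH659.AQ.fs]
    · simp [ex, TH659.AQ.fs]
  rw [h2]
  exact h _ _

/-- the gap theorem -/
theorem gapE (r d : ℕ) (f : κ → ℂ → ℂ) (han : ∀ y, ∀ t : ℂ, 0 < t.re → AnalyticAt ℂ (f y) t)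
    (hind : ∀ t : ℂ, 0 < t.re → Pool.Agent.Y124.LocInd f t) (α β : ℝ) (hα : 0 < α) (A δ : ℝ) (hA : 0 ≤ A) (hδ : 0 < δ) :
    ∃ B C T₀ : ℝ, 0 ≤ B ∧ 0 ≤ C ∧ 2 ≤ T₀ ∧ ∀ (ξ : G → ℂ) (T : ℝ), T₀ ≤ T → ∀ Y : Fin r → Finset ℚ,
      (∀ j, ∀ x ∈ Y j, α ≤ (x : ℝ) ∧ (x : ℝ) ≤ β ∧ (x.den : ℝ) ≤ T) →
      (∀ j, ∀ x ∈ Y j, ∀ y ∈ Y j, |(x : ℝ) - y| ≤ T ^ (-δ)) →
      ∀ μ : ℝ, 0 < μ → (∀ Q : MvPolynomial G ℤ, (∀ i, Q.degreeOf i ≤ d) →
        (∀ s, |((Q.coeff s : ℤ) : ℝ)| ≤ T ^ (A + 1)) → MvPolynomial.aeval ξ Q ≠ 0 → μ ≤ ‖MvPolynomial.aeval ξ Q‖) →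
      ∀ E : Finset (Fin r → ℚ), (∀ x ∈ E, (∀ j, x j ∈ Y j) ∧ ∃ P : MvPolynomial (G ⊕ (Fin r × κ)) ℤ,
        (∀ z, P.degreeOf z ≤ d) ∧ (∀ s, |((P.coeff s : ℤ) : ℝ)| ≤ 2 * T ^ A) ∧
        (∃ e : Fin r → κ → Fin (d + 1), MvPolynomial.aeval ξ (Qe P e) ≠ 0) ∧
        ‖MvPolynomial.aeval (Sum.elim ξ fun u : Fin r × κ => f u.2 ((x u.1 : ℚ) : ℂ)) P‖ ≤ 4 * (μ * T ^ (-B))) →
      (E.card : ℝ) ≤ C * ∑ j, ∏ i ∈ Finset.univ.erase j, ((Y i).card : ℝ) := by
  classical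
  set c₀ : ℝ := |β| + 1 with hc₀
  have hc₀1 : 1 ≤ c₀ := by
    rw [hc₀]
    linarith [abs_nonneg β]
  obtain ⟨B, C, T₀, hB, hC, hT₀, H⟩ := core 1 r (Fintype.card (G → Fin (d + 1))) d f han hind α c₀ hα (A + 1) (δ / 2)
    (by positivity)
  refine ⟨2 * B + 2, C, max T₀ c₀, by linarith, hC, hT₀.trans (le_max_left _ _), ?_⟩
  intro ξ T hT Y hY hYd μ hμ hQ E hE
  have hTT₀ : T₀ ≤ T := (le_max_left _ _).trans hT
  have hTc : c₀ ≤ T := (le_max_right _ _).trans hT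
  have hT2 : 2 ≤ T := hT₀.trans hTT₀
  have hT1 : 1 ≤ T := by linarith
  have hTp : 0 < T := by linarith
  set T' : ℝ := c₀ * T with hT'
  have hTT' : T ≤ T' := le_mul_of_one_le_left hTp.le hc₀1
  have hT'p : 0 < T' := by linarith
  set ψ := Fintype.equivFin (G → Fin (d + 1)) with hψ
  refine H ℚ (by simp) (algebraMap ℚ ℂ) (fun i => ∏ k, ξ k ^ ((ψ.symm i) k : ℕ)) T' (hTT₀.trans hTT') Y ?_ ?_ E ?_
  · intro j x hx
    obtain ⟨h1, h2, h3⟩ := hY j x hx
    have h4 : (algebraMap ℚ ℂ) x = ((x : ℝ) : ℂ) := by simp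
    have h5 : |(x : ℝ)| ≤ c₀ := by
      rw [abs_of_pos (hα.trans_le h1), hc₀]
      linarith [le_abs_self β]
    refine ⟨by rw [h4, Complex.ofReal_re]; exact h1, by rw [h4, Complex.norm_real, Real.norm_eq_abs]; exact h5, ?_⟩
    have h6 := htLe_rat ℚ hc₀1 hT1 x h5 h3
    simpa using h6
  · intro j x hx x' hx'
    have h3 : (algebraMap ℚ ℂ) x - (algebraMap ℚ ℂ) x' = (((x : ℝ) - x' : ℝ) : ℂ) := by
      simp
    rw [h3, Complex.norm_real, Real.norm_eq_abs]
    exact (hYd j x hx x' hx').trans (rad_le hc₀1 hTc hδ)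
  · intro x hx
    obtain ⟨hxY, P, hPd, hPc, ⟨e, he⟩, hsmall⟩ := hE x hx
    have hPc' : ∀ s, |((P.coeff s : ℤ) : ℝ)| ≤ T ^ (A + 1) := fun s => (hPc s).trans (by
      rw [Real.rpow_add_one hTp.ne']
      have h2 : 0 < T ^ A := by positivity
      nlinarith)
    have hTA : T ^ (A + 1) ≤ T' ^ (A + 1) := Real.rpow_le_rpow hTp.le hTT' (by linarith)
    refine ⟨hxY, cs d ξ P, cs_degree ξ P, ?_, xs e, ?_, ?_⟩
    · intro s
      by_cases hs : ∃ e : Fin r → κ → Fin (d + 1), xs e = s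
      · obtain ⟨e, rfl⟩ := hs
        refine ⟨fun i => ((P.coeff (ex (ψ.symm i) e) : ℤ) : 𝓞 ℚ), fun i φ => ?_, ?_⟩
        · have e1 : ((((P.coeff (ex (ψ.symm i) e) : ℤ) : 𝓞 ℚ)) : ℚ) = ((P.coeff (ex (ψ.symm i) e) : ℤ) : ℚ) := rfl
          rw [e1, map_intCast, Complex.norm_intCast]
          exact (hPc' _).trans hTA
        · rw [cs_coeff, aeval_Qe, ← Equiv.sum_comp ψ.symm]
          refine Finset.sum_congr rfl fun i _ => ?_
          congr 1
      · push Not at hs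
        refine ⟨fun _ => 0, fun i φ => ?_, ?_⟩
        · simp only [map_zero, norm_zero]
          positivity
        · rw [cs_coeff' ξ P s hs]
          simp
    · rw [cs_coeff]
      exact he
    · rw [cs_coeff, cs_aeval ξ _ P hPd]
      have h1 : μ ≤ ‖MvPolynomial.aeval ξ (Qe P e)‖ := hQ _ (Qe_deg P e) (Qe_coeff P e (by positivity) hPc') he
      have h2 : 4 * (μ * T ^ (-(2 * B + 2))) ≤ T' ^ (-B) * μ := by
        have h3 : T ^ (-(2 * B + 2)) = T ^ (-(2 * B)) * (T ^ (2 : ℝ))⁻¹ := by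
          rw [← Real.rpow_neg hTp.le, ← Real.rpow_add hTp]
          congr 1
          ring
        have h4 : T ^ (-(2 * B)) ≤ T' ^ (-B) := by
          have h5 : T' ≤ T * T := mul_le_mul_of_nonneg_right hTc hTp.le
          have h6 : T ^ (-(2 * B)) = (T * T) ^ (-B) := by
            rw [Real.mul_rpow hTp.le hTp.le, ← Real.rpow_add hTp]
            congr 1
            ring
          rw [h6]
          exact Real.rpow_le_rpow_of_nonpos hT'p h5 (by linarith)
        have h7 : 4 * (T ^ (2 : ℝ))⁻¹ ≤ 1 := by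
          rw [← div_eq_mul_inv, div_le_one (by positivity)]
          have : (4 : ℝ) = 2 ^ (2 : ℝ) := by norm_num
          rw [this]
          exact Real.rpow_le_rpow (by norm_num) hT2 (by norm_num)
        have h8 : 0 < T ^ (-(2 * B)) := by positivity
        calc 4 * (μ * T ^ (-(2 * B + 2))) = μ * T ^ (-(2 * B)) * (4 * (T ^ (2 : ℝ))⁻¹) := by rw [h3]; ring
          _ ≤ μ * T ^ (-(2 * B)) * 1 := mul_le_mul_of_nonneg_left h7 (by positivity)
          _ ≤ T' ^ (-B) * μ := by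
              rw [mul_one, mul_comm]
              exact mul_le_mul_of_nonneg_right h4 hμ.le
      have h9 : MvPolynomial.aeval (Sum.elim ξ fun u : Fin r × κ => f u.2 ((algebraMap ℚ ℂ) (x u.1))) P =
          MvPolynomial.aeval (Sum.elim ξ fun u : Fin r × κ => f u.2 ((x u.1 : ℚ) : ℂ)) P := rfl
      rw [h9]
      exact hsmall.trans (h2.trans (mul_le_mul_of_nonneg_left h1 (by positivity)))

end Pool.Agent.K7.H63.HO
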