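import Pool.Agent.K7.H63.HO.Fun

/-!
# Algebraic independence of solutions of first order difference equations: the additive condition
-/

set_option autoImplicit false
set_option linter.unusedSectionVars false

namespace Pool.Agent.K7.H63.HO

open Polynomial Filter Topology

/-- invariant rational functions are constant -/
lemma inv_const {L : ℂ} (hL : L ≠ 0) (c : KK) (hc : shK L c = c) : ∃ x : ℂ, c = al (C x) := by
  obtain ⟨u, v, hv, rfl⟩ := exists_frac c
  have hsv : sh0 L v ≠ 0 := fun h => hv (sh0_inj L (by rw [h, map_zero]))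
  rw [map_div₀, shK_al, shK_al, div_eq_div_iff (al_ne hsv) (al_ne hv), ← map_mul, ← map_mul] at hc
  have h1 := al_inj hc
  have h2 : ∀ t : ℂ, u.eval (t + L) * v.eval t = u.eval t * v.eval (t + L) := by
    intro t
    have := congrArg (Polynomial.eval t) h1
    rwa [eval_mul, eval_mul, sh0_eval, sh0_eval] at this
  have hinj : Function.Injective fun k : ℕ => (k : ℂ) * L := by
    intro a b hab
    exact_mod_cast mul_right_cancel₀ hL hab
  -- the roots of `v`
  have hfin : {k : ℕ | v.eval ((k : ℂ) * L) = 0}.Finite := by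
    have h3 : {t : ℂ | v.eval t = 0}.Finite := by
      refine (v.roots.toFinset.finite_toSet).subset fun t ht => ?_
      simpa [hv] using ht
    exact h3.preimage (hinj.injOn)
  obtain ⟨N, hN⟩ : ∃ N : ℕ, ∀ k, N ≤ k → v.eval ((k : ℂ) * L) ≠ 0 := by
    obtain ⟨M, hM⟩ := hfin.bddAbove
    refine ⟨M + 1, fun k hk h => ?_⟩
    have := hM h
    omega
  set x := u.eval ((N : ℂ) * L) / v.eval ((N : ℂ) * L) with hx
  have h4 : ∀ k, N ≤ k → u.eval ((k : ℂ) * L) = x * v.eval ((k : ℂ) * L) := by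
    intro k hk
    induction k, hk using Nat.le_induction with
    | base => rw [hx, div_mul_cancel₀ _ (hN N le_rfl)]
    | succ k hk ih =>
      have h5 := h2 ((k : ℂ) * L)
      have h6 : ((k + 1 : ℕ) : ℂ) * L = (k : ℂ) * L + L := by push_cast; ring
      rw [h6]
      rw [ih] at h5
      have h7 := hN k hk
      apply mul_right_cancel₀ h7
      rw [h5]
      ring
  have h8 : u - C x * v = 0 := by
    apply Polynomial.eq_zero_of_infinite_isRoot
    have h9 : Set.Infinite ((fun k : ℕ => (k : ℂ) * L) '' Set.Ici N) :=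
      (Set.Ici_infinite N).image hinj.injOn
    refine h9.mono ?_
    rintro _ ⟨k, hk, rfl⟩
    simp only [Set.mem_ofPred_eq, IsRoot.def, eval_sub, eval_mul, eval_C]
    rw [h4 k hk, sub_self]
  refine ⟨x, ?_⟩
  rw [div_eq_iff (al_ne hv), ← map_mul]
  rw [sub_eq_zero.1 h8]

lemma eval_frac_sum {ι : Type} (s : Finset ι) (A B : ι → ℂ[X]) (hB : ∀ i ∈ s, B i ≠ 0)
    (h : ∑ i ∈ s, al (A i) / al (B i) = 0) (t : ℂ) (ht : ∀ i ∈ s, (B i).eval t ≠ 0) :
    ∑ i ∈ s, (A i).eval t / (B i).eval t = 0 := by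
  classical
  have h1 : ∑ i ∈ s, A i * ∏ k ∈ s.erase i, B k = 0 := by
    apply al_inj
    rw [map_zero, map_sum, ← mul_zero (al (∏ k ∈ s, B k)), ← h, Finset.mul_sum]
    refine Finset.sum_congr rfl fun i hi => ?_
    rw [← Finset.mul_prod_erase s B hi, map_mul, map_mul]
    field_simp [al_ne (hB i hi)]
  have h2 : ∑ i ∈ s, (A i).eval t * ∏ k ∈ s.erase i, (B k).eval t = 0 := by
    have := congrArg (Polynomial.eval t) h1
    rw [eval_finsetSum, eval_zero] at this
    rw [← this]
    refine Finset.sum_congr rfl fun i _ => ?_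
    rw [eval_mul, eval_prod]
  have h3 : (∏ k ∈ s, (B k).eval t) ≠ 0 := Finset.prod_ne_zero_iff.2 ht
  apply mul_left_cancel₀ h3
  rw [mul_zero, ← h2, Finset.mul_sum]
  refine Finset.sum_congr rfl fun i hi => ?_
  rw [← Finset.mul_prod_erase s _ hi]
  have := ht i hi
  field_simp

lemma ev_ne {p : ℂ[X]} (hp : p ≠ 0) (b : ℂ) : ∀ᶠ ε in 𝓝[≠] (0 : ℂ), p.eval (b + ε) ≠ 0 := by
  have h1 : {t : ℂ | p.eval t = 0}.Finite := by
    refine (p.roots.toFinset.finite_toSet).subset fun t ht => ?_
    simpa [hp] using ht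
  have h2 : {ε : ℂ | p.eval (b + ε) = 0}.Finite :=
    h1.preimage ((add_right_injective b).injOn)
  exact (nhdsNE_le_cofinite (0 : ℂ)) h2.compl_mem_cofinite

variable {κ : Type} [Fintype κ]

theorem add_cond (L : ℂ) (hL : L ≠ 0) (a e : κ → ℂ) (s : κ → ℕ) (hs : ∀ i, 1 ≤ s i) (he : ∀ i, e i ≠ 0)
    (ha : ∀ i k, (∃ n : ℤ, a i - a k = n * L) → a i = a k) (has : ∀ i k, a i = a k → s i = s k → i = k)
    (c : κ → KK) (hc : ∀ i, shK L (c i) = c i) (g : KK)
    (h : ∑ i, c i * (al (C (e i)) / al ((X + C (a i)) ^ s i)) = g - shK L g) : ∀ i, c i = 0 := by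
  classical
  choose x hx using fun i => inv_const hL (c i) (hc i)
  suffices hx0 : ∀ i, x i = 0 by
    intro i
    rw [hx i, hx0 i, map_zero, map_zero]
  by_contra hcon
  push Not at hcon
  obtain ⟨i₁, hi₁⟩ := hcon
  -- the largest exponent
  obtain ⟨i₀, hi₀, hmax⟩ := Finset.exists_max_image (Finset.univ.filter fun i => a i = a i₁ ∧ x i ≠ 0) s
    ⟨i₁, by simp [hi₁]⟩
  simp only [Finset.mem_filter, Finset.mem_univ, true_and] at hi₀ hmax
  have hmax' : ∀ i, a i = a i₀ → x i ≠ 0 → s i ≤ s i₀ := fun i h1 h2 => hmax i ⟨h1.trans hi₀.1, h2⟩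
  obtain ⟨u, v, hv, rfl⟩ := exists_frac g
  have hsv : sh0 L v ≠ 0 := fun h => hv (sh0_inj L (by rw [h, map_zero]))
  have hqne : ∀ i, ((X + C (a i)) ^ s i : ℂ[X]) ≠ 0 := fun i => pow_ne_zero _ (X_add_C_ne_zero _)
  -- the identity for values
  have hval : ∀ t : ℂ, (∀ i, t + a i ≠ 0) → v.eval t ≠ 0 → v.eval (t + L) ≠ 0 →
      ∑ i, x i * e i / (t + a i) ^ s i = u.eval t / v.eval t - u.eval (t + L) / v.eval (t + L) := by
    intro t h1 h2 h3
    have h4 := eval_frac_sum (Finset.univ : Finset (Option (Option κ)))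
      (fun o => o.elim (-u) fun o => o.elim (sh0 L u) fun i => C (x i) * C (e i))
      (fun o => o.elim v fun o => o.elim (sh0 L v) fun i => (X + C (a i)) ^ s i) ?_ ?_ t ?_
    · rw [Fintype.sum_option, Fintype.sum_option] at h4
      simp only [Option.elim, eval_neg, sh0_eval, eval_mul, eval_C, eval_pow, eval_add, eval_X] at h4
      linear_combination h4
    · rintro (_ | _ | i) -
      · exact hv
      · exact hsv
      · exact hqne i
    · rw [Fintype.sum_option, Fintype.sum_option]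
      simp only [Option.elim]
      rw [map_div₀, shK_al, shK_al] at h
      have h5 : ∑ i, al (C (x i) * C (e i)) / al ((X + C (a i)) ^ s i) =
          ∑ i, c i * (al (C (e i)) / al ((X + C (a i)) ^ s i)) := by
        refine Finset.sum_congr rfl fun i _ => ?_
        rw [hx i, map_mul, mul_div_assoc]
      rw [h5, h, map_neg]
      ring
    · rintro (_ | _ | i) -
      · exact h2
      · simpa [sh0_eval] using h3
      · simpa using pow_ne_zero (s i) (h1 i)
  -- choice of `N`
  have hinj1 : Function.Injective fun k : ℕ => -a i₀ - (k : ℂ) * L := by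
    intro p q hpq
    have : (p : ℂ) * L = (q : ℂ) * L := by linear_combination -hpq
    exact_mod_cast mul_right_cancel₀ hL this
  have hinj2 : Function.Injective fun k : ℕ => -a i₀ + ((k : ℂ) + 1) * L := by
    intro p q hpq
    have : (p : ℂ) * L = (q : ℂ) * L := by linear_combination hpq
    exact_mod_cast mul_right_cancel₀ hL this
  have hroots : {t : ℂ | v.eval t = 0}.Finite := by
    refine (v.roots.toFinset.finite_toSet).subset fun t ht => ?_
    simpa [hv] using ht
  obtain ⟨N, hN1, hN2⟩ : ∃ N : ℕ, v.eval (-a i₀ - (N : ℂ) * L) ≠ 0 ∧ v.eval (-a i₀ + ((N : ℂ) + 1) * L) ≠ 0 := by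
    have h1 := (hroots.preimage hinj1.injOn).union (hroots.preimage hinj2.injOn)
    obtain ⟨N, hN⟩ := h1.exists_notMem
    refine ⟨N, fun h => hN (Or.inl h), fun h => hN (Or.inr h)⟩
  set M := 2 * N + 1 with hM
  set t₀ := -a i₀ - (N : ℂ) * L with ht₀
  have ht₀M : t₀ + (M : ℂ) * L = -a i₀ + ((N : ℂ) + 1) * L := by
    rw [ht₀, hM]
    push_cast
    ring
  -- telescoping
  have htel : ∀ᶠ ε in 𝓝[≠] (0 : ℂ), ∑ n ∈ Finset.range M, ∑ i, ε ^ s i₀ * (x i * e i / (t₀ + (n : ℂ) * L + a i + ε) ^ s i) =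
      ε ^ s i₀ * (u.eval (t₀ + ε) / v.eval (t₀ + ε) - u.eval (t₀ + (M : ℂ) * L + ε) / v.eval (t₀ + (M : ℂ) * L + ε)) := by
    have h1 : ∀ᶠ ε in 𝓝[≠] (0 : ℂ), ∀ n ∈ Finset.range (M + 1), v.eval (t₀ + (n : ℂ) * L + ε) ≠ 0 := by
      rw [Filter.eventually_all_finset]
      intro n _
      exact ev_ne hv _
    have h2 : ∀ᶠ ε in 𝓝[≠] (0 : ℂ), ∀ n ∈ Finset.range M, ∀ i, t₀ + (n : ℂ) * L + ε + a i ≠ 0 := by
      rw [Filter.eventually_all_finset]
      intro n _
      rw [Filter.eventually_all]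
      intro i
      filter_upwards [ev_ne (X_add_C_ne_zero (a i)) (t₀ + (n : ℂ) * L)] with ε hε
      simpa using hε
    filter_upwards [h1, h2] with ε h1 h2
    have h3 : ∀ m, m ≤ M → ∑ n ∈ Finset.range m, ∑ i, x i * e i / (t₀ + (n : ℂ) * L + ε + a i) ^ s i =
        u.eval (t₀ + ε) / v.eval (t₀ + ε) - u.eval (t₀ + (m : ℂ) * L + ε) / v.eval (t₀ + (m : ℂ) * L + ε) := by
      intro m
      induction m with
      | zero => intro _; simp
      | succ m ih =>
        intro hm
        rw [Finset.sum_range_succ, ih (by omega)]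
        have h5 : t₀ + ((m + 1 : ℕ) : ℂ) * L + ε = t₀ + (m : ℂ) * L + ε + L := by push_cast; ring
        have h4 := hval (t₀ + (m : ℂ) * L + ε) (h2 m (Finset.mem_range.2 (by omega)))
          (h1 m (Finset.mem_range.2 (by omega))) (by
            have := h1 (m + 1) (Finset.mem_range.2 (by omega))
            rwa [h5] at this)
        rw [h4, h5]
        ring
    rw [← h3 M le_rfl, Finset.mul_sum]
    refine Finset.sum_congr rfl fun n _ => ?_
    rw [Finset.mul_sum]
    refine Finset.sum_congr rfl fun i _ => ?_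
    rw [show t₀ + (n : ℂ) * L + a i + ε = t₀ + (n : ℂ) * L + ε + a i by ring]
  -- the limit of the right side
  have hR : Tendsto (fun ε : ℂ => ε ^ s i₀ * (u.eval (t₀ + ε) / v.eval (t₀ + ε) -
      u.eval (t₀ + (M : ℂ) * L + ε) / v.eval (t₀ + (M : ℂ) * L + ε))) (𝓝[≠] 0) (𝓝 0) := by
    have hcont : ContinuousAt (fun ε : ℂ => ε ^ s i₀ * (u.eval (t₀ + ε) / v.eval (t₀ + ε) -
        u.eval (t₀ + (M : ℂ) * L + ε) / v.eval (t₀ + (M : ℂ) * L + ε))) 0 := by
      refine ContinuousAt.mul (by fun_prop) (ContinuousAt.sub (ContinuousAt.div ?_ ?_ ?_) (ContinuousAt.div ?_ ?_ ?_))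
      · exact (u.continuous.comp (by fun_prop)).continuousAt
      · exact (v.continuous.comp (by fun_prop)).continuousAt
      · rw [add_zero]; exact hN1
      · exact (u.continuous.comp (by fun_prop)).continuousAt
      · exact (v.continuous.comp (by fun_prop)).continuousAt
      · rw [add_zero, ht₀M]; exact hN2
    have h1 := hcont.tendsto.mono_left (nhdsWithin_le_nhds (s := {0}ᶜ))
    simpa [zero_pow (Nat.one_le_iff_ne_zero.1 (hs i₀))] using h1
  -- the limit of the left side
  have hLft : Tendsto (fun ε : ℂ => ∑ n ∈ Finset.range M, ∑ i, ε ^ s i₀ * (x i * e i / (t₀ + (n : ℂ) * L + a i + ε) ^ s i))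
      (𝓝[≠] 0) (𝓝 (∑ n ∈ Finset.range M, ∑ i, if n = N ∧ i = i₀ then x i₀ * e i₀ else 0)) := by
    refine tendsto_finsetSum _ fun n _ => tendsto_finsetSum _ fun i _ => ?_
    by_cases hb : t₀ + (n : ℂ) * L + a i = 0
    · have h1 : a i = a i₀ := by
        refine ha i i₀ ⟨(N : ℤ) - n, ?_⟩
        rw [ht₀] at hb
        push_cast
        linear_combination hb
      have h2 : n = N := by
        rw [ht₀, h1] at hb
        have : (n : ℂ) * L = (N : ℂ) * L := by linear_combination hb
        exact_mod_cast mul_right_cancel₀ hL this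
      rw [hb]
      by_cases hx0 : x i = 0
      · rw [if_neg]
        · simp [hx0]
        · rintro ⟨-, rfl⟩
          exact hi₀.2 hx0
      · have h3 := hmax' i h1 hx0
        have h4 : (fun ε : ℂ => ε ^ s i₀ * (x i * e i / (0 + ε) ^ s i)) =ᶠ[𝓝[≠] 0]
            fun ε => x i * e i * ε ^ (s i₀ - s i) := by
          filter_upwards [self_mem_nhdsWithin] with ε hε
          have hε0 : ε ≠ 0 := hε
          rw [zero_add, pow_sub₀ ε hε0 h3]
          field_simp
        refine Tendsto.congr' h4.symm ?_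
        have h5 : ContinuousAt (fun ε : ℂ => x i * e i * ε ^ (s i₀ - s i)) 0 := by fun_prop
        have h6 := h5.tendsto.mono_left (nhdsWithin_le_nhds (s := {0}ᶜ))
        by_cases h7 : i = i₀
        · subst h7
          rw [if_pos ⟨h2, rfl⟩]
          simpa using h6
        · rw [if_neg (fun h => h7 h.2)]
          have h8 : s i₀ - s i ≠ 0 := by
            intro h8
            exact h7 (has i i₀ h1 (by omega))
          simpa [zero_pow h8] using h6
    · rw [if_neg]
      · have h5 : ContinuousAt (fun ε : ℂ => ε ^ s i₀ * (x i * e i / (t₀ + (n : ℂ) * L + a i + ε) ^ s i)) 0 := by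
          refine ContinuousAt.mul (by fun_prop) (ContinuousAt.div (by fun_prop) (by fun_prop) ?_)
          rw [add_zero]
          exact pow_ne_zero _ hb
        have h6 := h5.tendsto.mono_left (nhdsWithin_le_nhds (s := {0}ᶜ))
        simpa [zero_pow (Nat.one_le_iff_ne_zero.1 (hs i₀))] using h6
      · rintro ⟨rfl, rfl⟩
        apply hb
        rw [ht₀]
        ring
  have h9 := tendsto_nhds_unique (hLft.congr' htel) hR
  have h10 : (∑ n ∈ Finset.range M, ∑ i, if n = N ∧ i = i₀ then x i₀ * e i₀ else 0) = x i₀ * e i₀ := by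
    rw [Finset.sum_eq_single N, Finset.sum_eq_single i₀]
    · simp
    · intro b _ hb
      rw [if_neg fun h => hb h.2]
    · simp
    · intro b _ hb
      refine Finset.sum_eq_zero fun i _ => ?_
      rw [if_neg fun h => hb h.1]
    · intro h
      exact absurd (Finset.mem_range.2 (by omega)) h
  rw [h10] at h9
  rcases mul_eq_zero.1 h9 with h | h
  · exact hi₀.2 h
  · exact he _ h

end Pool.Agent.K7.H63.HO
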