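import Mathlib

/-!
# Algebraic independence of solutions of first order difference equations, algebraic part

`K` is a field with an endomorphism `σ`; on the polynomials over `K` in variables `Y_i` (`Sum.inl i`) and `Z_j`
(`Sum.inr j`) there is the endomorphism `τ` with `Y_i ↦ Y_i + r_i`, `Z_j ↦ ρ_j Z_j`. A nonzero `τ`-stable space of
polynomials contains a nonzero polynomial in the `Z_j` only, unless a combination of the `r_i` with invariant
coefficients is of the form `g - σ g`.
-/

set_option autoImplicit false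
set_option linter.unusedSectionVars false

namespace Pool.Agent.K7.H63.HO

open MvPolynomial

variable {K κ μ : Type} [Field K] [Fintype κ] [Fintype μ]

/-- the degree in the additive variables -/
def wt (s : κ ⊕ μ →₀ ℕ) : ℕ := ∑ i, s (Sum.inl i)

lemma wt_add (s t : κ ⊕ μ →₀ ℕ) : wt (s + t) = wt s + wt t := by
  simp [wt, Finset.sum_add_distrib]

lemma wt_zero : wt (0 : κ ⊕ μ →₀ ℕ) = 0 := by simp [wt]

lemma wt_inl (i : κ) : wt (Finsupp.single (Sum.inl i) 1 : κ ⊕ μ →₀ ℕ) = 1 := by
  classical
  unfold wt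
  rw [Finset.sum_eq_single i]
  · simp
  · intro b _ hb
    rw [Finsupp.single_apply, if_neg]
    simpa using fun h : i = b => hb h.symm
  · simp

lemma wt_inr (j : μ) : wt (Finsupp.single (Sum.inr j) 1 : κ ⊕ μ →₀ ℕ) = 0 := by
  classical
  unfold wt
  refine Finset.sum_eq_zero fun i _ => ?_
  rw [Finsupp.single_apply, if_neg]
  simp

/-- all monomials have weight less than `n` -/
def low (n : ℕ) (P : MvPolynomial (κ ⊕ μ) K) : Prop := ∀ s, n ≤ wt s → P.coeff s = 0

lemma low.add {n : ℕ} {P Q : MvPolynomial (κ ⊕ μ) K} (hP : low n P) (hQ : low n Q) : low n (P + Q) := by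
  intro s hs
  rw [coeff_add, hP s hs, hQ s hs, add_zero]

lemma low.sub {n : ℕ} {P Q : MvPolynomial (κ ⊕ μ) K} (hP : low n P) (hQ : low n Q) : low n (P - Q) := by
  intro s hs
  rw [coeff_sub, hP s hs, hQ s hs, sub_zero]

lemma low.mono {n m : ℕ} {P : MvPolynomial (κ ⊕ μ) K} (hP : low n P) (h : n ≤ m) : low m P :=
  fun s hs => hP s (h.trans hs)

lemma low.C_mul {n : ℕ} {P : MvPolynomial (κ ⊕ μ) K} (hP : low n P) (a : K) : low n (C a * P) := by
  intro s hs
  rw [coeff_C_mul, hP s hs, mul_zero]

lemma low.mul {a b : ℕ} {P Q : MvPolynomial (κ ⊕ μ) K} (hP : low a P) (hQ : low (b + 1) Q) : low (a + b) (P * Q) := by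
  classical
  intro s hs
  rw [coeff_mul]
  refine Finset.sum_eq_zero fun u hu => ?_
  rw [Finset.HasAntidiagonal.mem_antidiagonal] at hu
  have h1 : wt s = wt u.1 + wt u.2 := by rw [← hu, wt_add]
  by_cases h : a ≤ wt u.1
  · rw [hP _ h, zero_mul]
  · rw [hQ _ (by omega), mul_zero]

lemma low_monomial (s : κ ⊕ μ →₀ ℕ) (a : K) : low (wt s + 1) (monomial s a) := by
  classical
  intro u hu
  rw [coeff_monomial, if_neg]
  rintro rfl
  omega

/-- `∏ ρ_j ^ (s_j)` -/
def rp (ρ : μ → K) (s : κ ⊕ μ →₀ ℕ) : K := ∏ j, ρ j ^ s (Sum.inr j)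

lemma rp_add (ρ : μ → K) (s t : κ ⊕ μ →₀ ℕ) : rp ρ (s + t) = rp ρ s * rp ρ t := by
  simp [rp, pow_add, Finset.prod_mul_distrib]

lemma rp_inl (ρ : μ → K) (i : κ) : rp ρ (Finsupp.single (Sum.inl i) 1 : κ ⊕ μ →₀ ℕ) = 1 := by
  classical
  unfold rp
  refine Finset.prod_eq_one fun j _ => ?_
  rw [Finsupp.single_apply, if_neg (by simp), pow_zero]

lemma rp_inr (ρ : μ → K) (j : μ) : rp ρ (Finsupp.single (Sum.inr j) 1 : κ ⊕ μ →₀ ℕ) = ρ j := by
  classical
  unfold rp
  rw [Finset.prod_eq_single j]
  · simp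
  · intro b _ hb
    rw [Finsupp.single_apply, if_neg, pow_zero]
    simpa using fun h : j = b => hb h.symm
  · simp

/-- the substitution -/
noncomputable def tau (σ : K →+* K) (r : κ → K) (ρ : μ → K) : MvPolynomial (κ ⊕ μ) K →+* MvPolynomial (κ ⊕ μ) K :=
  eval₂Hom (C.comp σ) (Sum.elim (fun i => X (Sum.inl i) + C (r i)) (fun j => C (ρ j) * X (Sum.inr j)))

variable (σ : K →+* K) (r : κ → K) (ρ : μ → K)

lemma tau_C (a : K) : tau σ r ρ (C a) = C (σ a) := by simp [tau]

lemma tau_inl (i : κ) : tau σ r ρ (X (Sum.inl i)) = X (Sum.inl i) + C (r i) := by simp [tau]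

lemma tau_inr (j : μ) : tau σ r ρ (X (Sum.inr j)) = C (ρ j) * X (Sum.inr j) := by simp [tau]

lemma tau_add_case {s t : κ ⊕ μ →₀ ℕ} (hs : low (wt s) (tau σ r ρ (monomial s 1) - monomial s (rp ρ s)))
    (ht : low (wt t) (tau σ r ρ (monomial t 1) - monomial t (rp ρ t))) :
    low (wt (s + t)) (tau σ r ρ (monomial (s + t) 1) - monomial (s + t) (rp ρ (s + t))) := by
  have e1 : (monomial (s + t) (1 : K) : MvPolynomial (κ ⊕ μ) K) = monomial s 1 * monomial t 1 := by
    rw [monomial_mul, one_mul]
  have e2 : (monomial (s + t) (rp ρ (s + t)) : MvPolynomial (κ ⊕ μ) K) = monomial s (rp ρ s) * monomial t (rp ρ t) := by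
    rw [monomial_mul, rp_add]
  have e3 : tau σ r ρ (monomial (s + t) 1) - monomial (s + t) (rp ρ (s + t)) =
      (tau σ r ρ (monomial s 1) - monomial s (rp ρ s)) * tau σ r ρ (monomial t 1) +
        (tau σ r ρ (monomial t 1) - monomial t (rp ρ t)) * monomial s (rp ρ s) := by
    rw [e1, e2, map_mul]
    ring
  rw [e3]
  have h1 : low (wt t + 1) (tau σ r ρ (monomial t 1)) := by
    have h2 := (ht.mono (Nat.le_succ _)).add (low_monomial t (rp ρ t))
    rwa [sub_add_cancel] at h2
  refine low.add ?_ ?_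
  · rw [wt_add]
    exact hs.mul h1
  · rw [wt_add, add_comm]
    exact ht.mul (low_monomial s _)

lemma tau_single (x : κ ⊕ μ) (k : ℕ) :
    low (wt (Finsupp.single x k)) (tau σ r ρ (monomial (Finsupp.single x k) 1) -
      monomial (Finsupp.single x k) (rp ρ (Finsupp.single x k))) := by
  induction k with
  | zero =>
    intro s _
    simp [rp]
  | succ k ih =>
    rw [Finsupp.single_add]
    refine tau_add_case σ r ρ ih ?_
    cases x with
    | inl i =>
      rw [wt_inl, rp_inl]
      have e1 : (monomial (Finsupp.single (Sum.inl i) 1) (1 : K) : MvPolynomial (κ ⊕ μ) K) = X (Sum.inl i) := rfl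
      rw [e1, tau_inl, add_sub_cancel_left]
      intro s hs
      classical
      rw [coeff_C, if_neg]
      rintro rfl
      rw [wt_zero] at hs
      omega
    | inr j =>
      have e1 : (monomial (Finsupp.single (Sum.inr j) 1) (1 : K) : MvPolynomial (κ ⊕ μ) K) = X (Sum.inr j) := rfl
      have e2 : (monomial (Finsupp.single (Sum.inr j) 1) (ρ j) : MvPolynomial (κ ⊕ μ) K) = C (ρ j) * X (Sum.inr j) := by
        rw [← e1, C_mul_monomial, mul_one]
      rw [rp_inr, e2, e1, tau_inr, sub_self]
      intro s _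
      rw [coeff_zero]

lemma tau_monomial (s : κ ⊕ μ →₀ ℕ) :
    low (wt s) (tau σ r ρ (monomial s 1) - monomial s (rp ρ s)) := by
  induction s using Finsupp.induction_linear with
  | zero =>
    intro s _
    simp [rp]
  | add s t hs ht => exact tau_add_case σ r ρ hs ht
  | single x k => exact tau_single σ r ρ x k

/-- the coefficients of top weight -/
lemma coeff_tau {n : ℕ} {P : MvPolynomial (κ ⊕ μ) K} (hP : low (n + 1) P) (s : κ ⊕ μ →₀ ℕ) (hs : n ≤ wt s) :
    (tau σ r ρ P).coeff s = σ (P.coeff s) * rp ρ s := by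
  classical
  have h1 : tau σ r ρ P = ∑ u ∈ P.support, tau σ r ρ (monomial u (P.coeff u)) := by
    conv_lhs => rw [P.as_sum, map_sum]
  rw [h1, coeff_sum]
  have h2 : ∀ u ∈ P.support, (tau σ r ρ (monomial u (P.coeff u))).coeff s =
      if u = s then σ (P.coeff u) * rp ρ u else 0 := by
    intro u hu
    have hwu : wt u ≤ n := by
      by_contra h
      exact (mem_support_iff.1 hu) (hP u (by omega))
    have h3 : tau σ r ρ (monomial u (P.coeff u)) = C (σ (P.coeff u)) * tau σ r ρ (monomial u 1) := by
      rw [← tau_C σ r ρ, ← map_mul, C_mul_monomial, mul_one]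
    have h4 := tau_monomial σ r ρ u s (hwu.trans hs)
    rw [coeff_sub, sub_eq_zero] at h4
    rw [h3, coeff_C_mul, h4, coeff_monomial]
    split_ifs
    · rfl
    · rw [mul_zero]
  rw [Finset.sum_congr rfl h2, Finset.sum_ite_eq' P.support s]
  split_ifs with h
  · rfl
  · rw [notMem_support_iff] at h
    rw [h, map_zero, zero_mul]

lemma low_tau {n : ℕ} {P : MvPolynomial (κ ⊕ μ) K} (hP : low (n + 1) P) : low (n + 1) (tau σ r ρ P) := by
  intro s hs
  rw [coeff_tau σ r ρ hP s (by omega), hP s hs, map_zero, zero_mul]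

/-- the constant coefficient for polynomials of additive degree one -/
lemma coeff_zero_tau {P : MvPolynomial (κ ⊕ μ) K} (hP : low 2 P) :
    (tau σ r ρ P).coeff 0 = σ (P.coeff 0) + ∑ i, σ (P.coeff (Finsupp.single (Sum.inl i) 1)) * r i := by
  classical
  have h1 : (constantCoeff : MvPolynomial (κ ⊕ μ) K →+* K).comp (tau σ r ρ) = eval₂Hom σ (Sum.elim r 0) := by
    apply MvPolynomial.ringHom_ext
    · intro a
      simp [tau]
    · intro x
      cases x with
      | inl i => simp [tau]
      | inr j => simp [tau]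
  have h2 : (tau σ r ρ P).coeff 0 = eval₂ σ (Sum.elim r 0) P := by
    have := RingHom.congr_fun h1 P
    simpa [constantCoeff_eq] using this
  rw [h2, eval₂_eq']
  set G : (κ ⊕ μ →₀ ℕ) → K := fun u => σ (P.coeff u) * ∏ x, Sum.elim r 0 x ^ u x with hG
  set F : Finset (κ ⊕ μ →₀ ℕ) := insert 0 (Finset.univ.image fun i : κ => Finsupp.single (Sum.inl i) 1) with hF
  have h3 : ∑ u ∈ P.support, G u = ∑ u ∈ P.support ∪ F, G u := by
    refine Finset.sum_subset Finset.subset_union_left fun u _ hu => ?_
    rw [notMem_support_iff] at hu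
    simp [hG, hu]
  have h4 : ∑ u ∈ F, G u = ∑ u ∈ P.support ∪ F, G u := by
    refine Finset.sum_subset Finset.subset_union_right fun u _ hu => ?_
    by_cases hw : 2 ≤ wt u
    · simp [hG, hP u hw]
    · by_cases hz : ∃ j, u (Sum.inr j) ≠ 0
      · obtain ⟨j, hj⟩ := hz
        have : ∏ x, Sum.elim r (0 : μ → K) x ^ u x = 0 :=
          Finset.prod_eq_zero (Finset.mem_univ (Sum.inr j)) (by simp [hj])
        simp only [hG]
        rw [this, mul_zero]
      · exfalso
        push Not at hz
        apply hu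
        rw [hF, Finset.mem_insert, Finset.mem_image]
        by_cases h0 : wt u = 0
        · left
          ext x
          cases x with
          | inl i =>
            have := (Finset.sum_eq_zero_iff.1 h0) i (Finset.mem_univ i)
            simpa using this
          | inr j => simpa using hz j
        · right
          obtain ⟨i, -, hi⟩ : ∃ i ∈ Finset.univ, u (Sum.inl i) ≠ 0 := by
            by_contra hcon
            push Not at hcon
            exact h0 (Finset.sum_eq_zero hcon)
          refine ⟨i, Finset.mem_univ i, ?_⟩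
          have hsum : u (Sum.inl i) + ∑ k ∈ Finset.univ.erase i, u (Sum.inl k) = wt u :=
            Finset.add_sum_erase _ (fun k => u (Sum.inl k)) (Finset.mem_univ i)
          have hi1 : u (Sum.inl i) = 1 := by omega
          have hr : ∑ k ∈ Finset.univ.erase i, u (Sum.inl k) = 0 := by omega
          ext x
          cases x with
          | inl k =>
            rw [Finsupp.single_apply]
            by_cases hk : i = k
            · subst hk
              simp [hi1]
            · rw [if_neg (by simpa using hk)]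
              exact ((Finset.sum_eq_zero_iff.1 hr) k (Finset.mem_erase.2 ⟨fun h => hk h.symm, Finset.mem_univ k⟩)).symm
          | inr j =>
            rw [Finsupp.single_apply, if_neg (by simp)]
            exact (hz j).symm
  change ∑ u ∈ P.support, G u = _
  rw [h3, ← h4, hF, Finset.sum_insert, Finset.sum_image]
  · congr 1
    · simp [hG]
    · refine Finset.sum_congr rfl fun i _ => ?_
      simp only [hG]
      congr 1
      rw [Finset.prod_eq_single (Sum.inl i)]
      · simp
      · intro x _ hx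
        rw [Finsupp.single_apply, if_neg (fun h => hx h.symm), pow_zero]
      · simp
  · intro i _ k _ hik
    have := (Finsupp.single_left_injective (one_ne_zero : (1 : ℕ) ≠ 0)) hik
    simpa using this
  · rw [Finset.mem_image]
    rintro ⟨i, -, hi⟩
    have := congrArg (fun u : κ ⊕ μ →₀ ℕ => u (Sum.inl i)) hi
    simp at this

lemma coeff_pd (x : κ ⊕ μ) (P : MvPolynomial (κ ⊕ μ) K) (u : κ ⊕ μ →₀ ℕ) :
    (pderiv x P).coeff u = P.coeff (u + Finsupp.single x 1) * (u x + 1) := by
  classical
  induction P using MvPolynomial.induction_on' with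
  | monomial s a =>
    rw [pderiv_monomial, coeff_monomial, coeff_monomial]
    by_cases h : s = u + Finsupp.single x 1
    · have h2 : s - Finsupp.single x 1 = u := by rw [h, add_tsub_cancel_right]
      rw [if_pos h2, if_pos h, h]
      simp
    · rw [if_neg h, zero_mul]
      split_ifs with h2
      · have h3 : s x = 0 := by
          by_contra h3
          apply h
          rw [← h2]
          refine (tsub_add_cancel_of_le ?_).symm
          rw [Finsupp.single_le_iff]
          omega
        rw [h3]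
        simp
      · rfl
  | add p q hp hq =>
    rw [map_add, coeff_add, hp, hq, coeff_add, add_mul]

/-- the factors of the variables -/
def wx (ρ : μ → K) : κ ⊕ μ → K := Sum.elim (fun _ => 1) ρ

lemma pd_tau (x : κ ⊕ μ) (P : MvPolynomial (κ ⊕ μ) K) :
    pderiv x (tau σ r ρ P) = C (wx ρ x) * tau σ r ρ (pderiv x P) := by
  classical
  induction P using MvPolynomial.induction_on with
  | C a => simp [tau_C]
  | add p q hp hq => simp only [map_add, hp, hq, mul_add]
  | mul_X p y hp =>
    have hX : pderiv x (tau σ r ρ (X y)) = C (wx ρ x) * tau σ r ρ (pderiv x (X y)) := by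
      by_cases h : y = x
      · subst h
        rw [pderiv_X_self, map_one, mul_one]
        cases y with
        | inl i => rw [tau_inl, map_add, pderiv_X_self, pderiv_C, add_zero]; simp [wx]
        | inr j =>
          rw [tau_inr, pderiv_mul, pderiv_C, zero_mul, zero_add, pderiv_X_self, mul_one]
          simp [wx]
      · rw [pderiv_X_of_ne h, map_zero, mul_zero]
        cases y with
        | inl i => rw [tau_inl, map_add, pderiv_X_of_ne h, pderiv_C, add_zero]
        | inr j => rw [tau_inr, pderiv_mul, pderiv_C, zero_mul, zero_add, pderiv_X_of_ne h, mul_zero]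
    rw [map_mul, pderiv_mul, hp, hX, pderiv_mul, map_add, map_mul, map_mul]
    ring

theorem descend [CharZero K] (hρ : ∀ j, ρ j ≠ 0)
    (hA : ∀ c : κ → K, (∀ i, σ (c i) = c i) → ∀ g : K, ∑ i, c i * r i = g - σ g → ∀ i, c i = 0) :
    ∀ (N : ℕ) (s : κ ⊕ μ →₀ ℕ) (P : MvPolynomial (κ ⊕ μ) K), ∑ x, s x ≤ N → tau σ r ρ P = C (rp ρ s) * P →
      P.coeff s ≠ 0 → low (wt s + 1) P → 1 ≤ wt s → False := by
  classical
  intro N
  induction N with
  | zero =>
    intro s P hN _ _ _ hs
    have h1 : ∀ x, s x = 0 := fun x => (Finset.sum_eq_zero_iff.1 (Nat.le_zero.1 hN)) x (Finset.mem_univ x)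
    have : wt s = 0 := Finset.sum_eq_zero fun i _ => h1 _
    omega
  | succ N ih =>
    intro s P hN hτ hc hl hs
    -- one step
    have step : ∀ x, s x ≠ 0 → (1 ≤ wt (s - Finsupp.single x 1)) → False := by
      intro x hx hw
      obtain ⟨u, hu⟩ : ∃ u, s = u + Finsupp.single x 1 :=
        ⟨s - Finsupp.single x 1, (tsub_add_cancel_of_le (by rw [Finsupp.single_le_iff]; omega)).symm⟩
      subst hu
      rw [add_tsub_cancel_right] at hw
      refine ih u (pderiv x P) ?_ ?_ ?_ ?_ hw
      · have h1 : ∑ y, (u + Finsupp.single x 1 : κ ⊕ μ →₀ ℕ) y = ∑ y, u y + 1 := by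
          simp only [Finsupp.coe_add, Pi.add_apply, Finset.sum_add_distrib]
          congr 1
          rw [Finset.sum_eq_single x]
          · simp
          · intro b _ hb
            rw [Finsupp.single_apply, if_neg (fun h => hb h.symm)]
          · simp
        omega
      · have h1 := pd_tau σ r ρ x P
        rw [hτ, pderiv_mul, pderiv_C, zero_mul, zero_add] at h1
        have h2 : rp ρ (u + Finsupp.single x 1) = rp ρ u * wx ρ x := by
          rw [rp_add]
          cases x with
          | inl i => rw [rp_inl]; simp [wx]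
          | inr j => rw [rp_inr]; simp [wx]
        have h3 : wx ρ x ≠ 0 := by
          cases x with
          | inl i => simp [wx]
          | inr j => exact hρ j
        have h4 : (C (wx ρ x) : MvPolynomial (κ ⊕ μ) K) ≠ 0 := by
          rwa [Ne, C_eq_zero]
        apply mul_left_cancel₀ h4
        rw [← h1, h2, C_mul]
        ring
      · rw [coeff_pd]
        refine mul_ne_zero hc ?_
        exact_mod_cast Nat.succ_ne_zero (u x)
      · intro v hv
        rw [coeff_pd, hl _ ?_, zero_mul]
        rw [wt_add, wt_add]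
        omega
    by_cases hz : ∃ j, s (Sum.inr j) ≠ 0
    · obtain ⟨j, hj⟩ := hz
      refine step (Sum.inr j) hj ?_
      have h1 : s - Finsupp.single (Sum.inr j) 1 + Finsupp.single (Sum.inr j) 1 = s :=
        tsub_add_cancel_of_le (by rw [Finsupp.single_le_iff]; omega)
      have h2 := congrArg wt h1
      rw [wt_add, wt_inr] at h2
      omega
    · push Not at hz
      obtain ⟨i, -, hi⟩ : ∃ i ∈ Finset.univ, s (Sum.inl i) ≠ 0 := by
        by_contra hcon
        push Not at hcon
        have := Finset.sum_eq_zero hcon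
        unfold wt at hs
        omega
      by_cases h2 : 2 ≤ wt s
      · refine step (Sum.inl i) hi ?_
        have h1 : s - Finsupp.single (Sum.inl i) 1 + Finsupp.single (Sum.inl i) 1 = s :=
          tsub_add_cancel_of_le (by rw [Finsupp.single_le_iff]; omega)
        have h3 := congrArg wt h1
        rw [wt_add, wt_inl] at h3
        omega
      · have hw1 : wt s = 1 := by omega
        have hsum : s (Sum.inl i) + ∑ k ∈ Finset.univ.erase i, s (Sum.inl k) = wt s :=
          Finset.add_sum_erase _ (fun k => s (Sum.inl k)) (Finset.mem_univ i)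
        have hs1 : s = Finsupp.single (Sum.inl i) 1 := by
          have hi1 : s (Sum.inl i) = 1 := by omega
          have hr : ∑ k ∈ Finset.univ.erase i, s (Sum.inl k) = 0 := by omega
          ext x
          cases x with
          | inl k =>
            rw [Finsupp.single_apply]
            by_cases hk : i = k
            · subst hk
              simp [hi1]
            · rw [if_neg (by simpa using hk)]
              exact (Finset.sum_eq_zero_iff.1 hr) k (Finset.mem_erase.2 ⟨fun h => hk h.symm, Finset.mem_univ k⟩)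
          | inr j =>
            rw [Finsupp.single_apply, if_neg (by simp)]
            exact hz j
        have hrp : rp ρ s = 1 := by rw [hs1, rp_inl]
        rw [hrp, C_1, one_mul] at hτ
        rw [hw1] at hl
        have hc1 : ∀ k, σ (P.coeff (Finsupp.single (Sum.inl k) 1)) = P.coeff (Finsupp.single (Sum.inl k) 1) := by
          intro k
          have h3 := coeff_tau σ r ρ hl (Finsupp.single (Sum.inl k) 1) (by rw [wt_inl])
          rw [hτ, rp_inl, mul_one] at h3
          exact h3.symm
        have h4 := coeff_zero_tau σ r ρ hl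
        rw [hτ] at h4
        have h5 := hA (fun k => P.coeff (Finsupp.single (Sum.inl k) 1)) hc1 (P.coeff 0) (by
          have h6 : ∑ k, σ (P.coeff (Finsupp.single (Sum.inl k) 1)) * r k =
              ∑ k, P.coeff (Finsupp.single (Sum.inl k) 1) * r k :=
            Finset.sum_congr rfl fun k _ => by rw [hc1 k]
          rw [h6] at h4
          linear_combination -h4)
        apply hc
        rw [hs1]
        exact h5 i

/-- The main theorem. -/
theorem main [CharZero K] (hρ : ∀ j, ρ j ≠ 0)
    (hA : ∀ c : κ → K, (∀ i, σ (c i) = c i) → ∀ g : K, ∑ i, c i * r i = g - σ g → ∀ i, c i = 0)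
    (J : Set (MvPolynomial (κ ⊕ μ) K)) (hadd : ∀ P ∈ J, ∀ Q ∈ J, P + Q ∈ J) (hC : ∀ a, ∀ P ∈ J, C a * P ∈ J)
    (hτ : ∀ P ∈ J, tau σ r ρ P ∈ J) (hZ : ∀ P ∈ J, low 1 P → P = 0) : ∀ P ∈ J, P = 0 := by
  classical
  by_contra hcon
  push Not at hcon
  obtain ⟨P₁, hP₁, hP₁0⟩ := hcon
  have hex : ∃ n, ∃ P ∈ J, P ≠ 0 ∧ low (n + 1) P := by
    refine ⟨P₁.support.sup wt, P₁, hP₁, hP₁0, fun s hs => ?_⟩
    by_contra h
    have := Finset.le_sup (f := wt) (mem_support_iff.2 h)
    omega
  obtain ⟨n, hn⟩ : ∃ n, n = Nat.find hex := ⟨_, rfl⟩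
  have hspec : ∃ P ∈ J, P ≠ 0 ∧ low (n + 1) P := hn ▸ Nat.find_spec hex
  have hmin : ∀ P ∈ J, P ≠ 0 → ¬ low n P := by
    intro P hP hP0 hl
    rcases Nat.eq_zero_or_pos n with h | h
    · apply hP0
      ext s
      rw [coeff_zero]
      exact hl s (by omega)
    · exact Nat.find_min hex (m := n - 1) (by omega) ⟨P, hP, hP0, by rwa [Nat.sub_add_cancel h]⟩
  have hn1 : 1 ≤ n := by
    by_contra h
    obtain ⟨P, hP, hP0, hl⟩ := hspec
    have : n = 0 := by omega
    subst this
    exact hP0 (hZ P hP hl)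
  let T : MvPolynomial (κ ⊕ μ) K → Finset (κ ⊕ μ →₀ ℕ) := fun P => P.support.filter fun s => wt s = n
  have hT : ∀ P ∈ J, P ≠ 0 → low (n + 1) P → (T P).Nonempty := by
    intro P hP hP0 hl
    by_contra h
    rw [Finset.not_nonempty_iff_eq_empty] at h
    refine hmin P hP hP0 fun s hs => ?_
    by_contra h2
    have h3 : wt s = n := by
      by_contra h3
      exact h2 (hl s (by omega))
    have h4 : s ∈ T P := Finset.mem_filter.2 ⟨mem_support_iff.2 h2, h3⟩
    rw [h] at h4
    exact absurd h4 (Finset.notMem_empty s)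
  have hex2 : ∃ k, ∃ P ∈ J, P ≠ 0 ∧ low (n + 1) P ∧ (T P).card = k := by
    obtain ⟨P, hP, hP0, hl⟩ := hspec
    exact ⟨_, P, hP, hP0, hl, rfl⟩
  obtain ⟨P, hP, hP0, hl, hk⟩ := Nat.find_spec hex2
  obtain ⟨s₀, hs₀⟩ := hT P hP hP0 hl
  have hs₀w : wt s₀ = n := (Finset.mem_filter.1 hs₀).2
  have hs₀c : P.coeff s₀ ≠ 0 := mem_support_iff.1 (Finset.mem_filter.1 hs₀).1
  -- normalise
  set P' := C (P.coeff s₀)⁻¹ * P with hP'
  have hP'c : ∀ s, P'.coeff s = (P.coeff s₀)⁻¹ * P.coeff s := fun s => by rw [hP', coeff_C_mul]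
  have hP'J : P' ∈ J := hC _ P hP
  have hP's : P'.coeff s₀ = 1 := by rw [hP'c, inv_mul_cancel₀ hs₀c]
  have hP'l : low (n + 1) P' := hl.C_mul _
  have hP'T : T P' = T P := by
    ext s
    simp only [T, Finset.mem_filter, mem_support_iff, hP'c]
    constructor
    · rintro ⟨h1, h2⟩
      exact ⟨fun h => h1 (by rw [h, mul_zero]), h2⟩
    · rintro ⟨h1, h2⟩
      exact ⟨mul_ne_zero (inv_ne_zero hs₀c) h1, h2⟩
  clear_value P'
  set Q := tau σ r ρ P' + C (-(rp ρ s₀)) * P' with hQ
  have hQJ : Q ∈ J := hadd _ (hτ _ hP'J) _ (hC _ _ hP'J)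
  have hQl : low (n + 1) Q := (low_tau σ r ρ hP'l).add (hP'l.C_mul _)
  have hQc : ∀ s, wt s = n → Q.coeff s = σ (P'.coeff s) * rp ρ s - rp ρ s₀ * P'.coeff s := by
    intro s hs
    rw [hQ, coeff_add, coeff_tau σ r ρ hP'l s hs.ge, coeff_C_mul]
    ring
  have hQT : T Q ⊆ (T P).erase s₀ := by
    intro s hs
    obtain ⟨h1, h2⟩ := Finset.mem_filter.1 hs
    rw [mem_support_iff, hQc s h2] at h1
    rw [Finset.mem_erase]
    constructor
    · rintro rfl
      apply h1
      rw [hP's, map_one]
      ring
    · rw [← hP'T]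
      refine Finset.mem_filter.2 ⟨mem_support_iff.2 fun h => h1 ?_, h2⟩
      rw [h, map_zero]
      ring
  have hQ0 : Q = 0 := by
    by_contra hQ0
    have h1 := Nat.find_min hex2 (m := (T Q).card) (by
      have h2 := Finset.card_le_card hQT
      rw [Finset.card_erase_of_mem hs₀] at h2
      have h3 : 0 < (T P).card := Finset.card_pos.2 ⟨s₀, hs₀⟩
      rw [← hk]
      omega)
    exact h1 ⟨Q, hQJ, hQ0, hQl, rfl⟩
  refine descend σ r ρ hρ hA _ s₀ P' le_rfl ?_ ?_ ?_ ?_
  · have h1 : tau σ r ρ P' = -(C (-(rp ρ s₀)) * P') := eq_neg_of_add_eq_zero_left hQ0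
    rw [h1, C_neg]
    ring
  · rw [hP's]
    exact one_ne_zero
  · rw [hs₀w]
    exact hP'l
  · omega

end Pool.Agent.K7.H63.HO
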