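import Pool.Agent.K7.H63.HO.Fam
import Pool.Agent.R349.LocalMulti

/-!
# Relations between the values of a family of functions at tuples of points in small balls
-/

set_option autoImplicit false
set_option linter.unusedSectionVars false

open NumberField

namespace Pool.Agent.K7.H63.HO

open Pool.Agent.R349

lemma MgR_eq' {α : Type} {n : ℕ} (X : Fin n → Finset α) :
    Pool.Agent.Y124.MgR X = ∑ j, ∏ i ∈ Finset.univ.erase j, ((X i).card : ℝ) := by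
  unfold Pool.Agent.Y124.MgR
  refine Finset.sum_congr rfl fun j _ => ?_
  rw [← Finset.mul_prod_erase Finset.univ _ (Finset.mem_univ j), if_pos rfl, one_mul]
  exact Finset.prod_congr rfl fun i hi => if_neg (Finset.ne_of_mem_erase hi)

/-- the local theorem on the half plane -/
theorem core {κ : Type} [Fintype κ] (m r g d : ℕ) (f : κ → ℂ → ℂ)
    (han : ∀ y, ∀ t : ℂ, 0 < t.re → AnalyticAt ℂ (f y) t)
    (hind : ∀ t : ℂ, 0 < t.re → Pool.Agent.Y124.LocInd f t) (α β : ℝ) (hα : 0 < α) (A δ : ℝ) (hδ : 0 < δ) :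
    ∃ B C T₀ : ℝ, 0 ≤ B ∧ 0 ≤ C ∧ 2 ≤ T₀ ∧ ∀ (K : Type) [Field K] [NumberField K], Module.finrank ℚ K ≤ m →
      ∀ (ι : K →+* ℂ) (ξ : Fin g → ℂ) (T : ℝ), T₀ ≤ T → ∀ Y : Fin r → Finset K,
        (∀ j, ∀ x ∈ Y j, α ≤ (ι x).re ∧ ‖ι x‖ ≤ β ∧ Y120.HtLe K T x) →
        (∀ j, ∀ x ∈ Y j, ∀ y ∈ Y j, ‖ι x - ι y‖ ≤ T ^ (-δ)) →
        ∀ E : Finset (Fin r → K), (∀ x ∈ E, (∀ j, x j ∈ Y j) ∧
          ∃ P : MvPolynomial (Fin r × κ) ℂ, (∀ u, P.degreeOf u ≤ d) ∧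
          (∀ s, ∃ c : Fin g → 𝓞 K, (∀ i (φ : K →+* ℂ), ‖φ (c i)‖ ≤ T ^ A) ∧ P.coeff s = ∑ i, ξ i * ι (c i)) ∧
          ∃ s₀, P.coeff s₀ ≠ 0 ∧ ‖MvPolynomial.aeval (fun u : Fin r × κ => f u.2 (ι (x u.1))) P‖ ≤
            T ^ (-B) * ‖P.coeff s₀‖) →
        (E.card : ℝ) ≤ C * ∑ j, ∏ i ∈ Finset.univ.erase j, ((Y i).card : ℝ) := by
  classical
  set L : Set ℂ := {t : ℂ | α ≤ t.re} ∩ Metric.closedBall 0 β with hL
  have hLc : IsCompact L := (isCompact_closedBall (0 : ℂ) β).inter_left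
    (isClosed_le continuous_const Complex.continuous_re)
  have hLre : ∀ t ∈ L, 0 < t.re := fun t ht => lt_of_lt_of_le hα ht.1
  obtain ⟨B, C, T₀, hB, hC, hT₀, H⟩ := mainL m r g d (fun (_ : Fin r) (y : κ) (t : ℂ) => f y t) L hLc
    (fun _ y t ht => han y t (hLre t ht)) (fun _ t ht => hind t (hLre t ht)) A δ hδ
  refine ⟨B, C, T₀, hB, hC, hT₀, ?_⟩
  intro K _ _ hm ι ξ T hT Y hY hYd E hE
  have hsum0 : 0 ≤ ∑ j, ∏ i ∈ Finset.univ.erase j, ((Y i).card : ℝ) :=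
    Finset.sum_nonneg fun _ _ => Finset.prod_nonneg fun _ _ => Nat.cast_nonneg _
  by_cases hne : ∃ j, Y j = ∅
  · obtain ⟨j, hj⟩ := hne
    have hE0 : E = ∅ := by
      rw [Finset.eq_empty_iff_forall_notMem]
      intro x hx
      have := (hE x hx).1 j
      rw [hj] at this
      exact absurd this (Finset.notMem_empty _)
    rw [hE0, Finset.card_empty, Nat.cast_zero]
    exact mul_nonneg hC hsum0
  push Not at hne
  have hτ : ∀ j, ∃ τ : L, ∀ x ∈ Y j, ‖ι x - (τ : ℂ)‖ ≤ T ^ (-δ) := by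
    intro j
    obtain ⟨y, hy⟩ := hne j
    obtain ⟨h1, h2, -⟩ := hY j y hy
    exact ⟨⟨ι y, h1, by simpa using h2⟩, fun x hx => hYd j x hx y hy⟩
  choose τ hτ' using hτ
  rw [← MgR_eq']
  exact H K hm ι ξ T hT τ Y (fun j x hx => ⟨hτ' j x hx, (hY j x hx).2.2⟩) E hE

/-- heights of rational numbers -/
lemma htLe_rat (K : Type) [Field K] [NumberField K] {c₀ T : ℝ} (hc₀ : 1 ≤ c₀) (hT : 1 ≤ T) (x : ℚ)
    (hx : |(x : ℝ)| ≤ c₀) (hd : (x.den : ℝ) ≤ T) : Y120.HtLe K (c₀ * T) (x : K) := by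
  have hcT : T ≤ c₀ * T := le_mul_of_one_le_left (by linarith) hc₀
  have hcT0 : 0 ≤ c₀ * T := by positivity
  refine ⟨((x.num : ℤ) : 𝓞 K), ((x.den : ℕ) : 𝓞 K), ?_, ?_, ?_, ?_⟩
  · exact_mod_cast x.den_pos.ne'
  · refine Y120.house_le K hcT0 fun φ => ?_
    have e1 : ((((x.num : ℤ) : 𝓞 K)) : K) = ((x.num : ℤ) : K) := by push_cast; rfl
    rw [e1, map_intCast, Complex.norm_intCast]
    have h4 : (x.num : ℝ) = (x : ℝ) * x.den := by
      have h5 : (x : ℝ) = (x.num : ℝ) / x.den := by exact_mod_cast (Rat.cast_def x : (x : ℝ) = _)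
      have h6 : (x.den : ℝ) ≠ 0 := by exact_mod_cast x.den_pos.ne'
      rw [h5]
      field_simp
    have h7 : |(x.den : ℝ)| = x.den := abs_of_nonneg (Nat.cast_nonneg _)
    rw [h4, abs_mul, h7]
    exact mul_le_mul hx hd (Nat.cast_nonneg _) (by linarith)
  · refine Y120.house_le K hcT0 fun φ => ?_
    have e1 : ((((x.den : ℕ) : 𝓞 K)) : K) = ((x.den : ℕ) : K) := by push_cast; rfl
    rw [e1, map_natCast, Complex.norm_natCast]
    exact hd.trans hcT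
  · have e1 : ((((x.num : ℤ) : 𝓞 K)) : K) = ((x.num : ℤ) : K) := by push_cast; rfl
    have e2 : ((((x.den : ℕ) : 𝓞 K)) : K) = ((x.den : ℕ) : K) := by push_cast; rfl
    rw [e1, e2]
    exact Rat.cast_def x

/-- the condition on the sets: `T ^ (-δ)` against the larger height -/
lemma rad_le {c₀ T δ : ℝ} (hc₀ : 1 ≤ c₀) (hT : c₀ ≤ T) (hδ : 0 < δ) : T ^ (-δ) ≤ (c₀ * T) ^ (-(δ / 2)) := by
  have hTp : 0 < T := by linarith
  have hcT : 0 < c₀ * T := by positivity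
  rw [Real.rpow_neg hTp.le, Real.rpow_neg hcT.le]
  refine inv_anti₀ (Real.rpow_pos_of_pos hcT _) ?_
  calc (c₀ * T) ^ (δ / 2) ≤ (T * T) ^ (δ / 2) :=
        Real.rpow_le_rpow hcT.le (mul_le_mul_of_nonneg_right hT hTp.le) (by positivity)
    _ = T ^ δ := by
        rw [Real.mul_rpow hTp.le hTp.le, ← Real.rpow_add hTp]
        congr 1
        ring

end Pool.Agent.K7.H63.HO
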