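import Pool.Agent.K7.H63.HO.Hur

/-!
# The families: Gamma, digamma, Hurwitz zeta functions and Beta functions at shifted arguments
-/

set_option autoImplicit false
set_option linter.unusedSectionVars false

namespace Pool.Agent.K7.H63.HO

open Polynomial Filter Topology Pool.Agent.R349

lemma re_pos_add {t a : ℂ} (ht : 0 < t.re) (ha : 0 ≤ a.re) : 0 < (t + a).re := by
  rw [Complex.add_re]
  linarith

/-- Gamma, digamma and Hurwitz zeta functions at incongruent shifts -/
theorem fam1 (p S : ℕ) (a : Fin p → ℂ) (ha : ∀ k, 0 ≤ (a k).re) (hsep : ∀ k l, ∀ n : ℤ, a k - a l = n → k = l) :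
    ∀ t0 : ℂ, 0 < t0.re →
      Pool.Agent.Y124.LocInd (fun (y : Fin p × Fin (S + 1)) (t : ℂ) => H y.2 (t + a y.1)) t0 := by
  classical
  intro t0 ht0
  have hcomp : ∀ (s : ℕ) (k : Fin p) (t : ℂ), 0 < t.re → AnalyticAt ℂ (fun t => H s (t + a k)) t := by
    intro s k t ht
    have h1 : AnalyticAt ℂ (fun t : ℂ => t + a k) t := by fun_prop
    exact AnalyticAt.fun_comp (f := fun t : ℂ => t + a k) (H_an s (re_pos_add ht (ha k))) h1
  have key := locInd_half (fun (y : Fin p × Fin S) (t : ℂ) => H ((y.2 : ℕ) + 1) (t + a y.1))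
    (fun (k : Fin p) (t : ℂ) => H 0 (t + a k)) (fun y t ht => hcomp _ _ t ht) (fun k t ht => hcomp _ _ t ht)
    (fun y => a y.1) (fun y => if (y.2 : ℕ) = 0 then 1 else -1) (fun y => (y.2 : ℕ) + 1) (fun y => by omega)
    (fun y => by split_ifs <;> simp)
    (fun i k ⟨n, hn⟩ => by rw [hsep _ _ n hn])
    (fun i k h1 h2 => by
      have h3 : i.1 = k.1 := hsep i.1 k.1 0 (by rw [h1]; simp)
      have h4 : i.2 = k.2 := Fin.ext (by omega)
      exact Prod.ext h3 h4)
    (fun y t ht => by
      have h1 := H_add (y.2 : ℕ) (re_pos_add ht (ha y.1))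
      have h2 : t + 1 + a y.1 = t + a y.1 + 1 := by ring
      simp only [h2]
      exact h1)
    (fun k => C (a k) + C 1 * X) (fun _ => 1) (fun k => lin_ne _ _ one_ne_zero) (fun _ => one_ne_zero)
    (fun k t ht => by
      rw [H_zero]
      exact Complex.Gamma_ne_zero (ne_negNat (re_pos_add ht (ha k))))
    (fun k t ht => by
      have h1 := re_pos_add ht (ha k)
      have h2 : t + 1 + a k = t + a k + 1 := by ring
      rw [H_zero, H_zero, h2, Complex.Gamma_add_one _ (by simpa using ne_negNat h1 0)]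
      simp only [eval_one, eval_add, eval_C, eval_mul, eval_X]
      ring)
    (fun i => ⟨-a i, by
      rw [cls_lin _ _ _ _ one_ne_zero, cls_one, if_pos ⟨0, by simp⟩]
      exact one_ne_zero, fun j hj => by
      rw [cls_lin _ _ _ _ one_ne_zero, cls_one, if_neg]
      rintro ⟨n, hn⟩
      exact hj (hsep j i (-n) (by push_cast; linear_combination hn))⟩) t0 ht0
  set ε : Fin p × Fin (S + 1) → (Fin p × Fin S) ⊕ Fin p := fun y =>
    Fin.cases (motive := fun _ => (Fin p × Fin S) ⊕ Fin p) (Sum.inr y.1) (fun i => Sum.inl (y.1, i)) y.2 with hε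
  have hinj : Function.Injective ε := by
    rintro ⟨k, s⟩ ⟨l, s'⟩ h
    simp only [hε] at h
    induction s using Fin.cases with
    | zero =>
      induction s' using Fin.cases with
      | zero => simpa using h
      | succ j => simp at h
    | succ i =>
      induction s' using Fin.cases with
      | zero => simp at h
      | succ j => simpa using h
  have h1 := locInd_sub ε hinj _ t0 key
  have h2 : (fun y : Fin p × Fin (S + 1) => (fun y : (Fin p × Fin S) ⊕ Fin p =>
      Sum.elim (fun (y : Fin p × Fin S) (t : ℂ) => H ((y.2 : ℕ) + 1) (t + a y.1))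
        (fun (k : Fin p) (t : ℂ) => H 0 (t + a k)) y) (ε y)) =
      fun (y : Fin p × Fin (S + 1)) (t : ℂ) => H y.2 (t + a y.1) := by
    funext ⟨k, s⟩ t
    simp only [hε]
    induction s using Fin.cases with
    | zero => simp
    | succ i => simp
  rw [h2] at h1
  exact h1

/-- `B(t, ρ) = Γ(t) Γ(ρ) / Γ(t + ρ)` -/
noncomputable def Be (ρ t : ℂ) : ℂ := Complex.Gamma t * Complex.Gamma ρ / Complex.Gamma (t + ρ)

/-- `H' 0 = ψ - ψ(1)`, `H' k = ζ(k + 1, ·)` for `k ≥ 1` -/
noncomputable def Hp (k : ℕ) (t : ℂ) : ℂ := if k = 0 then Complex.digamma t - Complex.digamma 1 else hz (k + 1) t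

lemma Hp_eq (k : ℕ) (t : ℂ) : Hp k t = H (k + 1) t - (if k = 0 then Complex.digamma 1 else 0) := by
  by_cases h : k = 0
  · subst h
    simp [Hp, H]
  · rw [Hp, if_neg h, if_neg h, H, if_neg (by omega), if_neg (by omega), sub_zero]

/-- Beta functions, and digamma and Hurwitz zeta functions at incongruent shifts -/
theorem fam2 (p S q : ℕ) (a : Fin p → ℂ) (ha : ∀ k, 0 ≤ (a k).re) (hsep : ∀ k l, ∀ n : ℤ, a k - a l = n → k = l)
    (ρ : Fin q → ℂ) (hρ : ∀ k, 0 < (ρ k).re) (hρn : ∀ k, ∀ n : ℤ, ρ k ≠ n)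
    (hρs : ∀ k l, ∀ n : ℤ, ρ k - ρ l = n → k = l) :
    ∀ t0 : ℂ, 0 < t0.re → Pool.Agent.Y124.LocInd (fun (y : (Fin p × Fin S) ⊕ Fin q) =>
      Sum.elim (fun (y : Fin p × Fin S) (t : ℂ) => Hp y.2 (t + a y.1)) (fun (k : Fin q) (t : ℂ) => Be (ρ k) t) y) t0 := by
  classical
  intro t0 ht0
  have hcomp : ∀ (k : ℕ) (l : Fin p) (t : ℂ), 0 < t.re → AnalyticAt ℂ (fun t => Hp k (t + a l)) t := by
    intro k l t ht
    have h1 : AnalyticAt ℂ (fun t : ℂ => t + a l) t := by fun_prop
    have h2 := AnalyticAt.fun_comp (f := fun t : ℂ => t + a l) (H_an (k + 1) (re_pos_add ht (ha l))) h1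
    have h3 : (fun t => Hp k (t + a l)) = fun t => H (k + 1) (t + a l) - (if k = 0 then Complex.digamma 1 else 0) := by
      funext t
      exact Hp_eq k _
    rw [h3]
    exact h2.sub analyticAt_const
  have hsum : ∀ k (t : ℂ), 0 < t.re → 0 < (t + ρ k).re := fun k t ht => re_pos_add ht (hρ k).le
  have hBan : ∀ k, ∀ t : ℂ, 0 < t.re → AnalyticAt ℂ (Be (ρ k)) t := by
    intro k t ht
    have h1 : AnalyticAt ℂ (fun t : ℂ => t + ρ k) t := by fun_prop
    have h2 := AnalyticAt.fun_comp (f := fun t : ℂ => t + ρ k)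
      (Pool.Agent.Y771.RP.Gamma_analyticAt (ne_negNat (hsum k t ht))) h1
    exact ((Pool.Agent.Y771.RP.Gamma_analyticAt (ne_negNat ht)).mul analyticAt_const).div h2
      (Complex.Gamma_ne_zero (ne_negNat (hsum k t ht)))
  refine locInd_half (fun (y : Fin p × Fin S) (t : ℂ) => Hp y.2 (t + a y.1))
    (fun (k : Fin q) (t : ℂ) => Be (ρ k) t) (fun y t ht => hcomp _ _ t ht) (fun k t ht => hBan k t ht)
    (fun y => a y.1) (fun y => if (y.2 : ℕ) = 0 then 1 else -1) (fun y => (y.2 : ℕ) + 1) (fun y => by omega)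
    (fun y => by split_ifs <;> simp)
    (fun i k ⟨n, hn⟩ => by rw [hsep _ _ n hn])
    (fun i k h1 h2 => by
      have h3 : i.1 = k.1 := hsep i.1 k.1 0 (by rw [h1]; simp)
      have h4 : i.2 = k.2 := Fin.ext (by omega)
      exact Prod.ext h3 h4)
    (fun y t ht => by
      have h1 := H_add (y.2 : ℕ) (re_pos_add ht (ha y.1))
      have h2 : t + 1 + a y.1 = t + a y.1 + 1 := by ring
      simp only [h2, Hp_eq]
      linear_combination h1)
    (fun _ => C 0 + C 1 * X) (fun k => C (ρ k) + C 1 * X) (fun _ => lin_ne _ _ one_ne_zero)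
    (fun k => lin_ne _ _ one_ne_zero)
    (fun k t ht => by
      refine div_ne_zero (mul_ne_zero (Complex.Gamma_ne_zero (ne_negNat ht))
        (Complex.Gamma_ne_zero (ne_negNat (hρ k)))) (Complex.Gamma_ne_zero (ne_negNat (hsum k t ht))))
    (fun k t ht => by
      have h1 : Complex.Gamma (t + ρ k) ≠ 0 := Complex.Gamma_ne_zero (ne_negNat (hsum k t ht))
      have h2 : t + 1 + ρ k = t + ρ k + 1 := by ring
      have h3 : t + ρ k ≠ 0 := by simpa using ne_negNat (hsum k t ht) 0
      have h4 : t ≠ 0 := by simpa using ne_negNat ht 0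
      simp only [Be, eval_add, eval_C, eval_mul, eval_X]
      rw [h2, Complex.Gamma_add_one _ h3, Complex.Gamma_add_one _ h4]
      field_simp
      ring)
    (fun i => ⟨-ρ i, by
      rw [cls_lin _ _ _ _ one_ne_zero, cls_lin _ _ _ _ one_ne_zero, if_neg, if_pos ⟨0, by simp⟩]
      · exact zero_ne_one
      · rintro ⟨n, hn⟩
        exact hρn i n (by linear_combination -hn), fun j hj => by
      rw [cls_lin _ _ _ _ one_ne_zero, cls_lin _ _ _ _ one_ne_zero, if_neg, if_neg]
      · rintro ⟨n, hn⟩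
        exact hj (hρs j i (-n) (by push_cast; linear_combination hn))
      · rintro ⟨n, hn⟩
        exact hρn i n (by linear_combination -hn)⟩) t0 ht0

end Pool.Agent.K7.H63.HO
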