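import Pool.Agent.K7.H63.HO.Alg

/-!
# Algebraic independence of solutions of first order difference equations: functions
-/

set_option autoImplicit false
set_option linter.unusedSectionVars false

namespace Pool.Agent.K7.H63.HO

open Polynomial

/-- the field of rational functions -/
abbrev KK : Type := FractionRing ℂ[X]

/-- the shift of polynomials -/
noncomputable def sh0 (L : ℂ) : ℂ[X] →+* ℂ[X] := compRingHom (X + C L)

lemma sh0_apply (L : ℂ) (p : ℂ[X]) : sh0 L p = p.comp (X + C L) := rfl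

lemma sh0_eval (L : ℂ) (p : ℂ[X]) (t : ℂ) : (sh0 L p).eval t = p.eval (t + L) := by
  rw [sh0_apply, eval_comp]
  simp

lemma sh0_inj (L : ℂ) : Function.Injective (sh0 L) := by
  rw [injective_iff_map_eq_zero]
  intro p hp
  rw [sh0_apply] at hp
  exact comp_X_add_C_eq_zero_iff.1 hp

/-- the embedding of the polynomials -/
noncomputable abbrev al : ℂ[X] →+* KK := algebraMap ℂ[X] KK

lemma al_inj : Function.Injective al := IsFractionRing.injective ℂ[X] KK

lemma al_ne {p : ℂ[X]} (hp : p ≠ 0) : al p ≠ 0 := by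
  rw [Ne, ← map_zero al]
  exact fun h => hp (al_inj h)

/-- the shift of rational functions -/
noncomputable def shK (L : ℂ) : KK →+* KK :=
  IsFractionRing.lift (A := ℂ[X]) (K := KK) (g := al.comp (sh0 L)) (al_inj.comp (sh0_inj L))

lemma shK_al (L : ℂ) (p : ℂ[X]) : shK L (al p) = al (sh0 L p) :=
  IsFractionRing.lift_algebraMap _ p

lemma exists_frac (a : KK) : ∃ u v : ℂ[X], v ≠ 0 ∧ a = al u / al v := by
  obtain ⟨u, v, hv, h⟩ := IsFractionRing.div_surjective (A := ℂ[X]) a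
  exact ⟨u, v, nonZeroDivisors.ne_zero hv, h.symm⟩

variable {κ μ : Type} [Fintype κ] [Fintype μ]

/-- evaluation -/
noncomputable def ev (f : κ → ℂ → ℂ) (z : μ → ℂ → ℂ) (t : ℂ) : MvPolynomial (κ ⊕ μ) ℂ[X] →+* ℂ :=
  MvPolynomial.eval₂Hom (evalRingHom t) (Sum.elim (fun i => f i t) (fun j => z j t))

/-- the relations -/
def JJ (Ω : Set ℂ) (f : κ → ℂ → ℂ) (z : μ → ℂ → ℂ) : Set (MvPolynomial (κ ⊕ μ) KK) :=
  {P | ∃ d : ℂ[X], d ≠ 0 ∧ ∃ P₀ : MvPolynomial (κ ⊕ μ) ℂ[X],
    MvPolynomial.map al P₀ = MvPolynomial.C (al d) * P ∧ ∀ t ∈ Ω, ev f z t P₀ = 0}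

lemma tau_poly (Ω : Set ℂ) (L : ℂ) (f : κ → ℂ → ℂ) (z : μ → ℂ → ℂ) (p q : κ → ℂ[X]) (hq : ∀ i, q i ≠ 0)
    (R S : μ → ℂ[X]) (hS : ∀ j, S j ≠ 0)
    (hf : ∀ i, ∀ t ∈ Ω, (q i).eval t * f i (t + L) = (q i).eval t * f i t + (p i).eval t)
    (hz : ∀ j, ∀ t ∈ Ω, (S j).eval t * z j (t + L) = (R j).eval t * z j t) (P₀ : MvPolynomial (κ ⊕ μ) ℂ[X]) :
    ∃ d : ℂ[X], d ≠ 0 ∧ ∃ P₁ : MvPolynomial (κ ⊕ μ) ℂ[X],
      MvPolynomial.map al P₁ = MvPolynomial.C (al d) *
        tau (shK L) (fun i => al (p i) / al (q i)) (fun j => al (R j) / al (S j)) (MvPolynomial.map al P₀) ∧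
      ∀ t ∈ Ω, ev f z t P₁ = d.eval t * ev f z (t + L) P₀ := by
  induction P₀ using MvPolynomial.induction_on with
  | C a =>
    refine ⟨1, one_ne_zero, MvPolynomial.C (sh0 L a), ?_, fun t _ => ?_⟩
    · rw [MvPolynomial.map_C, MvPolynomial.map_C, tau_C, shK_al, map_one, MvPolynomial.C_1, one_mul]
    · simp [ev, sh0_eval]
  | add a b ha hb =>
    obtain ⟨d, hd, P, hP, hP'⟩ := ha
    obtain ⟨e, he, Q, hQ, hQ'⟩ := hb
    refine ⟨d * e, mul_ne_zero hd he, MvPolynomial.C e * P + MvPolynomial.C d * Q, ?_, fun t ht => ?_⟩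
    · rw [map_add, map_mul, map_mul, MvPolynomial.map_C, MvPolynomial.map_C, hP, hQ, map_add, map_add, map_mul,
        MvPolynomial.C_mul]
      ring
    · have h1 : ∀ c : ℂ[X], ev f z t (MvPolynomial.C c) = c.eval t := fun c => by simp [ev]
      rw [map_add, map_mul, map_mul, h1, h1, hP' t ht, hQ' t ht, map_add, eval_mul]
      ring
  | mul_X a y ha =>
    obtain ⟨d, hd, P, hP, hP'⟩ := ha
    have h1 : ∀ t, ∀ c : ℂ[X], ev f z t (MvPolynomial.C c) = c.eval t := fun t c => by simp [ev]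
    cases y with
    | inl i =>
      have h2 : ∀ t, ev f z t (MvPolynomial.X (Sum.inl i)) = f i t := fun t => by simp [ev]
      refine ⟨d * q i, mul_ne_zero hd (hq i),
        P * (MvPolynomial.C (q i) * MvPolynomial.X (Sum.inl i) + MvPolynomial.C (p i)), ?_, fun t ht => ?_⟩
      · have hX : MvPolynomial.map al (a * MvPolynomial.X (Sum.inl i) : MvPolynomial (κ ⊕ μ) ℂ[X]) =
            MvPolynomial.map al a * MvPolynomial.X (Sum.inl i) := by
          rw [map_mul (MvPolynomial.map al), MvPolynomial.map_X]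
        rw [hX, map_mul (tau _ _ _), tau_inl, map_mul (MvPolynomial.map al), map_add (MvPolynomial.map al),
          map_mul (MvPolynomial.map al), MvPolynomial.map_C, MvPolynomial.map_C, MvPolynomial.map_X, hP,
          map_mul al, MvPolynomial.C_mul]
        have h3 : (MvPolynomial.C (al (p i)) : MvPolynomial (κ ⊕ μ) KK) =
            MvPolynomial.C (al (q i)) * MvPolynomial.C (al (p i) / al (q i)) := by
          rw [← MvPolynomial.C_mul, mul_div_cancel₀ _ (al_ne (hq i))]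
        rw [h3]
        ring
      · rw [map_mul, map_add, map_mul, h1, h1, h2, hP' t ht, map_mul, h2, eval_mul]
        linear_combination -(d.eval t * ev f z (t + L) a) * hf i t ht
    | inr j =>
      have h2 : ∀ t, ev f z t (MvPolynomial.X (Sum.inr j)) = z j t := fun t => by simp [ev]
      refine ⟨d * S j, mul_ne_zero hd (hS j), P * (MvPolynomial.C (R j) * MvPolynomial.X (Sum.inr j)), ?_,
        fun t ht => ?_⟩
      · have hX : MvPolynomial.map al (a * MvPolynomial.X (Sum.inr j) : MvPolynomial (κ ⊕ μ) ℂ[X]) =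
            MvPolynomial.map al a * MvPolynomial.X (Sum.inr j) := by
          rw [map_mul (MvPolynomial.map al), MvPolynomial.map_X]
        rw [hX, map_mul (tau _ _ _), tau_inr, map_mul (MvPolynomial.map al), map_mul (MvPolynomial.map al),
          MvPolynomial.map_C, MvPolynomial.map_X, hP, map_mul al, MvPolynomial.C_mul]
        have h3 : (MvPolynomial.C (al (R j)) : MvPolynomial (κ ⊕ μ) KK) =
            MvPolynomial.C (al (S j)) * MvPolynomial.C (al (R j) / al (S j)) := by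
          rw [← MvPolynomial.C_mul, mul_div_cancel₀ _ (al_ne (hS j))]
        rw [h3]
        ring
      · rw [map_mul, map_mul, h1, h2, hP' t ht, map_mul, h2, eval_mul]
        linear_combination -(d.eval t * ev f z (t + L) a) * hz j t ht

theorem indep (Ω : Set ℂ) (L : ℂ) (hL : ∀ t ∈ Ω, t + L ∈ Ω) (f : κ → ℂ → ℂ) (z : μ → ℂ → ℂ) (p q : κ → ℂ[X])
    (hq : ∀ i, q i ≠ 0) (R S : μ → ℂ[X]) (hR : ∀ j, R j ≠ 0) (hS : ∀ j, S j ≠ 0)
    (hf : ∀ i, ∀ t ∈ Ω, (q i).eval t * f i (t + L) = (q i).eval t * f i t + (p i).eval t)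
    (hz : ∀ j, ∀ t ∈ Ω, (S j).eval t * z j (t + L) = (R j).eval t * z j t)
    (hM : ∀ P : MvPolynomial μ ℂ[X], (∀ t ∈ Ω, P.eval₂ (evalRingHom t) (fun j => z j t) = 0) → P = 0)
    (hA : ∀ c : κ → KK, (∀ i, shK L (c i) = c i) → ∀ g : KK, ∑ i, c i * (al (p i) / al (q i)) = g - shK L g →
      ∀ i, c i = 0) :
    ∀ P : MvPolynomial (κ ⊕ μ) ℂ[X],
      (∀ t ∈ Ω, P.eval₂ (evalRingHom t) (Sum.elim (fun i => f i t) (fun j => z j t)) = 0) → P = 0 := by
  classical
  intro P hP
  have hmapinj : Function.Injective (MvPolynomial.map al : MvPolynomial (κ ⊕ μ) ℂ[X] →+* MvPolynomial (κ ⊕ μ) KK) :=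
    MvPolynomial.map_injective _ al_inj
  have h0 : MvPolynomial.map al P ∈ JJ Ω f z := by
    refine ⟨1, one_ne_zero, P, by rw [map_one, MvPolynomial.C_1, one_mul], fun t ht => ?_⟩
    exact hP t ht
  have h1 := main (shK L) (fun i => al (p i) / al (q i)) (fun j => al (R j) / al (S j))
    (fun j => div_ne_zero (al_ne (hR j)) (al_ne (hS j))) hA (JJ Ω f z) ?_ ?_ ?_ ?_ _ h0
  · exact hmapinj (by rw [h1, map_zero])
  · rintro P ⟨d, hd, P₀, hP, hP'⟩ Q ⟨e, he, Q₀, hQ, hQ'⟩
    refine ⟨d * e, mul_ne_zero hd he, MvPolynomial.C e * P₀ + MvPolynomial.C d * Q₀, ?_, fun t ht => ?_⟩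
    · rw [map_add, map_mul, map_mul, MvPolynomial.map_C, MvPolynomial.map_C, hP, hQ, map_mul,
        MvPolynomial.C_mul]
      ring
    · rw [map_add, map_mul, map_mul, hP' t ht, hQ' t ht]
      ring
  · rintro a P ⟨d, hd, P₀, hP, hP'⟩
    obtain ⟨u, v, hv, rfl⟩ := exists_frac a
    refine ⟨d * v, mul_ne_zero hd hv, MvPolynomial.C u * P₀, ?_, fun t ht => ?_⟩
    · rw [map_mul, MvPolynomial.map_C, hP, map_mul, MvPolynomial.C_mul]
      have h3 : (MvPolynomial.C (al u) : MvPolynomial (κ ⊕ μ) KK) =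
          MvPolynomial.C (al v) * MvPolynomial.C (al u / al v) := by
        rw [← MvPolynomial.C_mul, mul_div_cancel₀ _ (al_ne hv)]
      rw [h3]
      ring
    · rw [map_mul, hP' t ht, mul_zero]
  · rintro P ⟨d, hd, P₀, hP, hP'⟩
    obtain ⟨e, he, P₁, h2, h3⟩ := tau_poly Ω L f z p q hq R S hS hf hz P₀
    refine ⟨e * sh0 L d, mul_ne_zero he fun h => hd (sh0_inj L (by rw [h, map_zero])), P₁, ?_, fun t ht => ?_⟩
    · rw [h2, hP, map_mul, tau_C, shK_al, map_mul, MvPolynomial.C_mul]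
      ring
    · rw [h3 t ht, hP' _ (hL t ht), mul_zero]
  · rintro P ⟨d, hd, P₀, hP, hP'⟩ hl
    have hc : ∀ s, al (P₀.coeff s) = al d * P.coeff s := by
      intro s
      have := congrArg (MvPolynomial.coeff s) hP
      rwa [MvPolynomial.coeff_map, MvPolynomial.coeff_C_mul] at this
    have hv : (P₀.vars : Set (κ ⊕ μ)) ⊆ Set.range Sum.inr := by
      intro x hx
      rw [Finset.mem_coe, MvPolynomial.mem_vars] at hx
      obtain ⟨s, hs, hsx⟩ := hx
      cases x with
      | inr j => exact ⟨j, rfl⟩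
      | inl i =>
        exfalso
        apply MvPolynomial.mem_support_iff.1 hs
        apply al_inj
        rw [hc, hl s, mul_zero, map_zero]
        have h5 : s (Sum.inl i) ≤ wt s :=
          Finset.single_le_sum (f := fun i => s (Sum.inl i)) (fun _ _ => Nat.zero_le _) (Finset.mem_univ i)
        have h6 : s (Sum.inl i) ≠ 0 := Finsupp.mem_support_iff.1 hsx
        omega
    obtain ⟨P₂, hP₂⟩ := MvPolynomial.exists_rename_eq_of_vars_subset_range P₀ Sum.inr Sum.inr_injective hv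
    have h5 : P₂ = 0 := by
      apply hM
      intro t ht
      have h6 := hP' t ht
      rw [← hP₂] at h6
      simp only [ev, MvPolynomial.coe_eval₂Hom, MvPolynomial.eval₂_rename] at h6
      exact h6
    have h7 : MvPolynomial.C (al d) * P = 0 := by
      rw [← hP, ← hP₂, h5, map_zero, map_zero]
    rcases mul_eq_zero.1 h7 with h8 | h8
    · exact absurd (MvPolynomial.C_eq_zero.1 h8) (al_ne hd)
    · exact h8

end Pool.Agent.K7.H63.HO
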