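import Pool.Agent.K7.H63.HO.Add
import Pool.Agent.R349.GamProd

/-!
# Independence of Gamma, digamma and Hurwitz zeta functions on a half plane
-/

set_option autoImplicit false
set_option linter.unusedSectionVars false

namespace Pool.Agent.K7.H63.HO

open Polynomial Filter Topology Pool.Agent.R349

/-- the Hurwitz zeta function at the integer `s`, as a function of the shift -/
noncomputable def hz (s : ℕ) (t : ℂ) : ℂ := ∑' n : ℕ, 1 / ((n : ℂ) + t) ^ s

lemma hz_bound {σ : ℝ} (hσ : 0 < σ) {s : ℕ} (hs : 2 ≤ s) :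
    Summable fun n : ℕ => 1 / ((n : ℝ) + σ) ^ s := by
  have h1 : Summable fun n : ℕ => 1 / |(n : ℝ) + σ| ^ (s : ℝ) :=
    (Real.summable_one_div_nat_add_rpow σ s).2 (by exact_mod_cast hs)
  refine h1.congr fun n => ?_
  rw [abs_of_pos (by positivity), Real.rpow_natCast]

lemma hz_norm {σ : ℝ} (hσ : 0 < σ) (s : ℕ) (t : ℂ) (ht : σ ≤ t.re) (n : ℕ) :
    ‖1 / ((n : ℂ) + t) ^ s‖ ≤ 1 / ((n : ℝ) + σ) ^ s := by
  rw [norm_div, norm_one, norm_pow]
  have h1 : (n : ℝ) + σ ≤ ‖(n : ℂ) + t‖ := by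
    calc (n : ℝ) + σ ≤ ((n : ℂ) + t).re := by simpa using ht
      _ ≤ ‖(n : ℂ) + t‖ := Complex.re_le_norm _
  exact one_div_le_one_div_of_le (by positivity) (pow_le_pow_left₀ (by positivity) h1 s)

lemma hz_summable {s : ℕ} (hs : 2 ≤ s) {t : ℂ} (ht : 0 < t.re) : Summable fun n : ℕ => 1 / ((n : ℂ) + t) ^ s :=
  Summable.of_norm_bounded (hz_bound ht hs) fun n => hz_norm ht s t le_rfl n

lemma hz_an {s : ℕ} (hs : 2 ≤ s) {t : ℂ} (ht : 0 < t.re) : AnalyticAt ℂ (hz s) t := by
  have h0 : 0 < t.re / 2 := by linarith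
  have hopen : IsOpen {w : ℂ | t.re / 2 < w.re} := isOpen_lt continuous_const Complex.continuous_re
  have h1 : DifferentiableOn ℂ (fun w => ∑' n : ℕ, 1 / ((n : ℂ) + w) ^ s) {w : ℂ | t.re / 2 < w.re} := by
    refine Complex.differentiableOn_tsum_of_summable_norm (hz_bound h0 hs) (fun n => ?_) hopen
      (fun n w hw => hz_norm h0 s w hw.le n)
    intro w hw
    have h2 : (n : ℂ) + w ≠ 0 := by
      intro h
      have h3 := congrArg Complex.re h
      have h4 : t.re / 2 < w.re := hw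
      simp at h3
      have h5 : (0 : ℝ) ≤ n := Nat.cast_nonneg n
      linarith
    have h6 : DifferentiableAt ℂ (fun w : ℂ => 1 / ((n : ℂ) + w) ^ s) w :=
      DifferentiableAt.div (by fun_prop) (by fun_prop) (pow_ne_zero _ h2)
    exact h6.differentiableWithinAt
  exact h1.analyticAt (hopen.mem_nhds (by simp; linarith))

lemma hz_succ {s : ℕ} (hs : 2 ≤ s) {t : ℂ} (ht : 0 < t.re) : hz s t = 1 / t ^ s + hz s (t + 1) := by
  unfold hz
  rw [(hz_summable hs ht).tsum_eq_zero_add]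
  congr 1
  · simp
  · refine tsum_congr fun n => ?_
    push_cast
    rw [add_assoc, add_comm 1 t]

lemma ne_negNat {t : ℂ} (ht : 0 < t.re) (m : ℕ) : t ≠ -m := by
  intro h
  have h1 := congrArg Complex.re h
  simp at h1
  have h2 : (0 : ℝ) ≤ m := Nat.cast_nonneg m
  linarith

lemma digamma_an {t : ℂ} (ht : 0 < t.re) : AnalyticAt ℂ Complex.digamma t := by
  have h1 := Pool.Agent.Y771.RP.Gamma_analyticAt (ne_negNat ht)
  exact h1.deriv.div h1 (Complex.Gamma_ne_zero (ne_negNat ht))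

/-- `H 0 = Γ`, `H 1 = ψ = Γ'/Γ`, `H s = ζ(s, ·)` for `s ≥ 2` -/
noncomputable def H (s : ℕ) (t : ℂ) : ℂ :=
  if s = 0 then Complex.Gamma t else if s = 1 then Complex.digamma t else hz s t

lemma H_zero (t : ℂ) : H 0 t = Complex.Gamma t := by simp [H]

lemma H_an (s : ℕ) {t : ℂ} (ht : 0 < t.re) : AnalyticAt ℂ (H s) t := by
  rcases Nat.eq_zero_or_pos s with h | h
  · subst h
    have : H 0 = Complex.Gamma := by funext t; exact H_zero t
    rw [this]
    exact Pool.Agent.Y771.RP.Gamma_analyticAt (ne_negNat ht)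
  · by_cases h1 : s = 1
    · subst h1
      have : H 1 = Complex.digamma := by funext t; simp [H]
      rw [this]
      exact digamma_an ht
    · have : H s = hz s := by
        funext t
        rw [H, if_neg (by omega), if_neg h1]
      rw [this]
      exact hz_an (by omega) ht

/-- the difference equation of `H (k + 1)` -/
lemma H_add (k : ℕ) {t : ℂ} (ht : 0 < t.re) :
    t ^ (k + 1) * H (k + 1) (t + 1) = t ^ (k + 1) * H (k + 1) t + (if k = 0 then 1 else -1) := by
  have ht0 : t ≠ 0 := by simpa using ne_negNat ht 0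
  by_cases h : k = 0
  · subst h
    have h1 : ∀ t, H (0 + 1) t = Complex.digamma t := fun t => by simp [H]
    rw [h1, h1, if_pos rfl, Complex.digamma_apply_add_one t (ne_negNat ht)]
    field_simp
    ring
  · have h1 : ∀ t, H (k + 1) t = hz (k + 1) t := fun t => by
      rw [H, if_neg (by omega), if_neg (by omega)]
    rw [h1, h1, if_neg h, hz_succ (by omega) ht]
    field_simp
    ring

section half
variable {κ μ : Type} [Fintype κ] [Fintype μ]

/-- independence on the half plane -/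
theorem locInd_half (f : κ → ℂ → ℂ) (z : μ → ℂ → ℂ) (hfa : ∀ i, ∀ t : ℂ, 0 < t.re → AnalyticAt ℂ (f i) t)
    (hza : ∀ j, ∀ t : ℂ, 0 < t.re → AnalyticAt ℂ (z j) t) (a e : κ → ℂ) (s : κ → ℕ) (hs : ∀ i, 1 ≤ s i)
    (he : ∀ i, e i ≠ 0) (ha : ∀ i k, (∃ n : ℤ, a i - a k = n) → a i = a k)
    (has : ∀ i k, a i = a k → s i = s k → i = k)
    (hf : ∀ i, ∀ t : ℂ, 0 < t.re → (t + a i) ^ s i * f i (t + 1) = (t + a i) ^ s i * f i t + e i)
    (R S : μ → ℂ[X]) (hR : ∀ j, R j ≠ 0) (hS : ∀ j, S j ≠ 0) (hz0 : ∀ j, ∀ t : ℂ, 0 < t.re → z j t ≠ 0)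
    (hz : ∀ j, ∀ t : ℂ, 0 < t.re → (S j).eval t * z j (t + 1) = (R j).eval t * z j t)
    (hcls : ∀ i, ∃ w, cls w 1 (R i) ≠ cls w 1 (S i) ∧ ∀ j, j ≠ i → cls w 1 (R j) = cls w 1 (S j)) :
    ∀ t0 : ℂ, 0 < t0.re → Pool.Agent.Y124.LocInd (fun y : κ ⊕ μ => Sum.elim f z y) t0 := by
  classical
  intro t0 ht0
  set Ω : Set ℂ := {t : ℂ | 0 < t.re} with hΩ
  refine Pool.Agent.Y771.RP.locInd_of (fun y : κ ⊕ μ => Sum.elim f z y) Ω (convex_halfSpace_re_gt 0).isPreconnected
    ?_ ?_ t0 ht0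
  · rintro (i | j) t ht
    · exact hfa i t ht
    · exact hza j t ht
  intro P hP
  have hinf : Ω.Infinite := by
    refine infinite_of_mem_nhds 1 ?_
    refine (isOpen_lt continuous_const Complex.continuous_re).mem_nhds ?_
    simp
  have hLs : ∀ t ∈ Ω, t + 1 ∈ Ω := by
    intro t ht
    change 0 < (t + 1).re
    have : 0 < t.re := ht
    simp
    linarith
  have h1 := indep Ω 1 hLs f z (fun i => C (e i)) (fun i => (X + C (a i)) ^ s i)
    (fun i => pow_ne_zero _ (X_add_C_ne_zero _)) R S hR hS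
    (fun i t ht => by
      have := hf i t ht
      simpa using this)
    (fun j t ht => hz j t ht)
    (shift_ind2 z Ω hinf 1 hLs (fun j t ht => hz0 j t ht) R S hR hS (fun j t ht => hz j t ht) (by
      intro e e' hee
      obtain ⟨i, hi⟩ := Function.ne_iff.1 hee
      obtain ⟨w, hw, hj⟩ := hcls i
      exact ⟨i, w, hi, hw, fun j hji _ => hj j hji⟩))
    (fun c hc g hg => add_cond 1 one_ne_zero a e s hs he (by
      intro i k ⟨n, hn⟩
      exact ha i k ⟨n, by rw [hn, mul_one]⟩) has c hc g hg)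
    (MvPolynomial.optionEquivRight ℂ (κ ⊕ μ) P) (fun t ht => by
      have h2 := hP t ht
      rw [Pool.Agent.Y549.GM.eval_option] at h2
      have h3 : (fun y : κ ⊕ μ => Sum.elim f z y t) = Sum.elim (fun i => f i t) (fun j => z j t) := by
        funext y
        cases y <;> rfl
      rwa [h3] at h2)
  exact (map_eq_zero_iff _ (MvPolynomial.optionEquivRight ℂ (κ ⊕ μ)).injective).1 h1

end half

/-- a subfamily -/
theorem locInd_sub {κ κ' : Type} (ε : κ' → κ) (hε : Function.Injective ε) (f : κ → ℂ → ℂ) (t0 : ℂ)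
    (h : Pool.Agent.Y124.LocInd f t0) : Pool.Agent.Y124.LocInd (fun y => f (ε y)) t0 := by
  intro P hP
  have h1 := h (MvPolynomial.rename (Option.map ε) P) (by
    filter_upwards [hP] with t ht
    rw [MvPolynomial.eval_rename]
    have h2 : (fun o : Option κ => o.elim t fun y => f y t) ∘ Option.map ε =
        fun o : Option κ' => o.elim t fun y => f (ε y) t := by
      funext o
      cases o <;> rfl
    rw [h2]
    exact ht)
  exact (MvPolynomial.rename_eq_zero_iff_of_injective _ (Option.map_injective hε)).1 h1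

end Pool.Agent.K7.H63.HO
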