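import Pool.Agent.K7.H63.HO.Core

/-!
# Algebraic multiples of a given number among the values of one function
-/

set_option autoImplicit false
set_option linter.unusedSectionVars false

open NumberField

namespace Pool.Agent.K7.H63.HO

section
variable {σ : Type} [Fintype σ] [DecidableEq σ]

/-- a polynomial in one of the variables -/
noncomputable def RU (u : σ) (m : ℕ) (c : ℕ → ℂ) : MvPolynomial σ ℂ :=
  ∑ k ∈ Finset.range (m + 1), MvPolynomial.monomial (Finsupp.single u k) (c k)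

lemma single_iff (u : σ) (k : ℕ) (s : σ →₀ ℕ) :
    Finsupp.single u k = s ↔ k = s u ∧ s = Finsupp.single u (s u) := by
  constructor
  · rintro rfl
    simp
  · rintro ⟨h1, h2⟩
    rw [h1]
    exact h2.symm

lemma RU_coeff (u : σ) (m : ℕ) (c : ℕ → ℂ) (s : σ →₀ ℕ) [Decidable (s = Finsupp.single u (s u))] :
    (RU u m c).coeff s = if s = Finsupp.single u (s u) then (if s u < m + 1 then c (s u) else 0) else 0 := by
  classical
  unfold RU
  rw [MvPolynomial.coeff_sum]
  simp only [MvPolynomial.coeff_monomial, single_iff u]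
  by_cases h : s = Finsupp.single u (s u)
  · rw [if_pos h]
    have h1 : ∀ k, (k = s u ∧ s = Finsupp.single u (s u)) ↔ k = s u := fun k => ⟨fun h => h.1, fun h' => ⟨h', h⟩⟩
    simp only [h1]
    rw [Finset.sum_ite_eq' (Finset.range (m + 1)) (s u)]
    simp only [Finset.mem_range]
  · rw [if_neg h]
    exact Finset.sum_eq_zero fun k _ => if_neg fun h' => h h'.2

lemma RU_degree (u : σ) (m : ℕ) (c : ℕ → ℂ) (v : σ) : (RU u m c).degreeOf v ≤ m := by
  classical
  rw [MvPolynomial.degreeOf_le_iff]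
  intro s hs
  rw [MvPolynomial.mem_support_iff, RU_coeff] at hs
  by_cases h : s = Finsupp.single u (s u)
  · rw [if_pos h] at hs
    by_contra hlt
    apply hs
    rw [if_neg]
    intro h1
    apply hlt
    rw [h, Finsupp.single_apply]
    split_ifs <;> omega
  · rw [if_neg h] at hs
    exact absurd rfl hs

lemma RU_eval (u : σ) (m : ℕ) (c : ℕ → ℂ) (v : σ → ℂ) :
    MvPolynomial.aeval v (RU u m c) = ∑ k ∈ Finset.range (m + 1), c k * (v u) ^ k := by
  unfold RU
  rw [map_sum]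
  refine Finset.sum_congr rfl fun k _ => ?_
  rw [MvPolynomial.aeval_monomial]
  simp

end

/-- algebraic multiples of `θ` among the values of the functions at rational points -/
theorem oneValue {κ : Type} [Fintype κ] (m : ℕ) (f : κ → ℂ → ℂ)
    (han : ∀ y, ∀ t : ℂ, 0 < t.re → AnalyticAt ℂ (f y) t)
    (hind : ∀ t : ℂ, 0 < t.re → Pool.Agent.Y124.LocInd f t) (α β : ℝ) (hα : 0 < α) (A δ : ℝ) (hδ : 0 < δ) :
    ∃ (C : ℕ) (T₀ : ℝ), ∀ (y : κ) (θ : ℂ), θ ≠ 0 → ∀ T : ℝ, T₀ ≤ T → ∀ Y : Finset ℚ,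
      (∀ x ∈ Y, α ≤ (x : ℝ) ∧ (x : ℝ) ≤ β ∧ (x.den : ℝ) ≤ T) →
      (∀ x ∈ Y, ∀ x' ∈ Y, |(x : ℝ) - x'| ≤ T ^ (-δ)) →
      {x : ℚ | x ∈ Y ∧ ∃ z : ℂ, (∃ p : Polynomial ℤ, p ≠ 0 ∧ p.natDegree ≤ m ∧
        (∀ i, |(p.coeff i : ℝ)| ≤ T ^ A) ∧ Polynomial.aeval z p = 0) ∧ f y x = z * θ}.ncard ≤ C := by
  classical
  set c₀ : ℝ := |β| + 1 with hc₀
  have hc₀1 : 1 ≤ c₀ := by
    rw [hc₀]
    linarith [abs_nonneg β]
  obtain ⟨B, C, T₀, hB, hC, hT₀, H⟩ := core 1 1 (m + 1) m f han hind α c₀ hα |A| (δ / 2) (by positivity)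
  refine ⟨⌈C⌉₊, max T₀ c₀, fun y θ hθ T hT Y hY hYd => ?_⟩
  have hTT₀ : T₀ ≤ T := (le_max_left _ _).trans hT
  have hTc : c₀ ≤ T := (le_max_right _ _).trans hT
  have hT1 : 1 ≤ T := hc₀1.trans hTc
  have hTp : 0 < T := by linarith
  set T' : ℝ := c₀ * T with hT'
  have hTT' : T ≤ T' := le_mul_of_one_le_left hTp.le hc₀1
  have hT'p : 0 < T' := by linarith
  set Bad : Finset ℚ := Y.filter fun x => ∃ z : ℂ, (∃ p : Polynomial ℤ, p ≠ 0 ∧ p.natDegree ≤ m ∧
    (∀ i, |(p.coeff i : ℝ)| ≤ T ^ A) ∧ Polynomial.aeval z p = 0) ∧ f y x = z * θ with hBad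
  have hBadS : {x : ℚ | x ∈ Y ∧ ∃ z : ℂ, (∃ p : Polynomial ℤ, p ≠ 0 ∧ p.natDegree ≤ m ∧
      (∀ i, |(p.coeff i : ℝ)| ≤ T ^ A) ∧ Polynomial.aeval z p = 0) ∧ f y x = z * θ} = (Bad : Set ℚ) := by
    ext a
    simp only [hBad, Finset.coe_filter, Set.mem_ofPred_eq]
  rw [hBadS, Set.ncard_coe_finset]
  have hcount := H ℚ (by simp) (algebraMap ℚ ℂ) (fun k : Fin (m + 1) => (θ⁻¹) ^ (k : ℕ)) T' (hTT₀.trans hTT')
    (fun _ : Fin 1 => Y) ?_ ?_ (Bad.image fun x => fun _ => x) ?_
  · have h1 : ∑ j : Fin 1, ∏ i ∈ Finset.univ.erase j, (((fun _ : Fin 1 => Y) i).card : ℝ) = 1 := by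
      simp
    rw [h1, mul_one, Finset.card_image_of_injective _ (fun a b h => congrFun h 0)] at hcount
    exact_mod_cast hcount.trans (Nat.le_ceil C)
  · intro _ x hx
    obtain ⟨h1, h2, h3⟩ := hY x hx
    have h4 : (algebraMap ℚ ℂ) x = ((x : ℝ) : ℂ) := by simp
    have h5 : |(x : ℝ)| ≤ c₀ := by
      rw [abs_of_pos (hα.trans_le h1), hc₀]
      linarith [le_abs_self β]
    refine ⟨by rw [h4, Complex.ofReal_re]; exact h1, by rw [h4, Complex.norm_real, Real.norm_eq_abs]; exact h5, ?_⟩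
    have h6 := htLe_rat ℚ hc₀1 hT1 x h5 h3
    simpa using h6
  · intro _ x hx x' hx'
    have h3 : (algebraMap ℚ ℂ) x - (algebraMap ℚ ℂ) x' = (((x : ℝ) - x' : ℝ) : ℂ) := by
      simp
    rw [h3, Complex.norm_real, Real.norm_eq_abs]
    exact (hYd x hx x' hx').trans (rad_le hc₀1 hTc hδ)
  · intro w hw
    obtain ⟨x, hx, rfl⟩ := Finset.mem_image.1 hw
    rw [hBad, Finset.mem_filter] at hx
    obtain ⟨hxY, z, ⟨p, hp0, hpm, hpH, hpz⟩, hval⟩ := hx
    refine ⟨fun _ => hxY, ?_⟩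
    set u : Fin 1 × κ := (0, y) with hu
    refine ⟨RU u m (fun k => (θ⁻¹) ^ k * (p.coeff k : ℂ)), RU_degree u m _, ?_, ?_⟩
    · intro s
      rw [RU_coeff]
      by_cases hs : s = Finsupp.single u (s u) ∧ s u < m + 1
      · rw [if_pos hs.1, if_pos hs.2]
        refine ⟨fun i => if i = ⟨s u, hs.2⟩ then ((p.coeff (s u) : ℤ) : 𝓞 ℚ) else 0, fun i φ => ?_, ?_⟩
        · by_cases hi : i = ⟨s u, hs.2⟩
          · simp only [if_pos hi]
            have e1 : ((((p.coeff (s u) : ℤ) : 𝓞 ℚ)) : ℚ) = ((p.coeff (s u) : ℤ) : ℚ) := rfl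
            rw [e1, map_intCast, Complex.norm_intCast]
            calc |((p.coeff (s u) : ℤ) : ℝ)| ≤ T ^ A := hpH _
              _ ≤ T ^ |A| := Real.rpow_le_rpow_of_exponent_le hT1 (le_abs_self A)
              _ ≤ T' ^ |A| := Real.rpow_le_rpow hTp.le hTT' (abs_nonneg A)
          · simp only [if_neg hi, map_zero, norm_zero]
            positivity
        · rw [Finset.sum_eq_single ⟨s u, hs.2⟩]
          · simp only [if_true]
            congr 1
          · intro b _ hb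
            simp only [if_neg hb]
            simp
          · intro h
            exact absurd (Finset.mem_univ _) h
      · refine ⟨fun _ => 0, fun i φ => ?_, ?_⟩
        · simp only [map_zero, norm_zero]
          positivity
        · by_cases h1 : s = Finsupp.single u (s u)
          · rw [if_pos h1, if_neg (fun h2 => hs ⟨h1, h2⟩)]
            simp
          · rw [if_neg h1]
            simp
    · obtain ⟨k, hk⟩ := Polynomial.support_nonempty.2 hp0
      have hkm : k ≤ m := (Polynomial.le_natDegree_of_mem_supp k hk).trans hpm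
      refine ⟨Finsupp.single u k, ?_, ?_⟩
      · rw [RU_coeff]
        have h3 : Finsupp.single u k u = k := by simp
        rw [h3, if_pos rfl, if_pos (by omega)]
        exact mul_ne_zero (pow_ne_zero _ (inv_ne_zero hθ)) (by exact_mod_cast Polynomial.mem_support_iff.1 hk)
      · rw [RU_eval]
        have h4 : f u.2 ((algebraMap ℚ ℂ) x) = z * θ := by
          rw [← hval]
          rfl
        simp only [h4]
        have h5 : ∀ k ∈ Finset.range (m + 1), (θ⁻¹) ^ k * (p.coeff k : ℂ) * (z * θ) ^ k = (p.coeff k : ℂ) * z ^ k := by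
          intro k _
          rw [mul_pow, inv_pow]
          field_simp
        have h6 : ∑ k ∈ Finset.range (m + 1), (θ⁻¹) ^ k * (p.coeff k : ℂ) * (z * θ) ^ k = 0 := by
          rw [Finset.sum_congr rfl h5, ← hpz, Polynomial.aeval_eq_sum_range' (Nat.lt_succ_of_le hpm)]
          refine Finset.sum_congr rfl fun k _ => ?_
          rw [zsmul_eq_mul]
        rw [h6, norm_zero]
        positivity

end Pool.Agent.K7.H63.HO
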