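import Pool.Agent.Y771.RP.Rel
import Pool.Agent.R349.LocalMulti

/-!
# Algebraic independence of the Riemann zeta function and exponential functions
-/

set_option autoImplicit false
set_option linter.unusedSectionVars false

namespace Pool.Agent.K7.H63.HO

open Filter Topology

/-- linear independence of the sequences `n ^ a ρ ^ n` -/
lemma exp_poly {σ : Type} [DecidableEq σ] (S : Finset σ) (a : σ → ℕ) (ρ : σ → ℝ) (hρ : ∀ s, 0 < ρ s)
    (hinj : ∀ s ∈ S, ∀ s' ∈ S, a s = a s' → ρ s = ρ s' → s = s') (c : σ → ℂ)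
    (h : ∀ n : ℕ, 1 ≤ n → ∑ s ∈ S, c s * (n : ℂ) ^ a s * (ρ s : ℂ) ^ n = 0) : ∀ s ∈ S, c s = 0 := by
  classical
  by_contra hcon
  push Not at hcon
  obtain ⟨s₁, hs₁, hcs₁⟩ := hcon
  set S' := S.filter fun s => c s ≠ 0 with hS'
  have hS'n : S'.Nonempty := ⟨s₁, Finset.mem_filter.2 ⟨hs₁, hcs₁⟩⟩
  obtain ⟨s₂, hs₂, hmax₂⟩ := Finset.exists_max_image S' ρ hS'n
  obtain ⟨s₀, hs₀, hmax₀⟩ := Finset.exists_max_image (S'.filter fun s => ρ s = ρ s₂) a
    ⟨s₂, Finset.mem_filter.2 ⟨hs₂, rfl⟩⟩
  rw [Finset.mem_filter] at hs₀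
  have hs₀S : s₀ ∈ S := (Finset.mem_filter.1 hs₀.1).1
  have hc₀ : c s₀ ≠ 0 := (Finset.mem_filter.1 hs₀.1).2
  have hρmax : ∀ s ∈ S, c s ≠ 0 → ρ s ≤ ρ s₀ := fun s hs hcs => by
    rw [hs₀.2]
    exact hmax₂ s (Finset.mem_filter.2 ⟨hs, hcs⟩)
  have hamax : ∀ s ∈ S, c s ≠ 0 → ρ s = ρ s₀ → a s ≤ a s₀ := fun s hs hcs he =>
    hmax₀ s (Finset.mem_filter.2 ⟨Finset.mem_filter.2 ⟨hs, hcs⟩, he.trans hs₀.2⟩)
  have hlim : Tendsto (fun n : ℕ => ∑ s ∈ S, c s * (n : ℂ) ^ a s * (ρ s : ℂ) ^ n / ((n : ℂ) ^ a s₀ * (ρ s₀ : ℂ) ^ n))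
      atTop (𝓝 (∑ s ∈ S, if s = s₀ then c s₀ else 0)) := by
    refine tendsto_finsetSum _ fun s hs => ?_
    by_cases hcs : c s = 0
    · have : (if s = s₀ then c s₀ else 0) = 0 := by
        split_ifs with he
        · exact absurd (he ▸ hcs) hc₀
        · rfl
      rw [this, hcs]
      simp
    by_cases he : s = s₀
    · subst he
      rw [if_pos rfl]
      refine Tendsto.congr' ?_ tendsto_const_nhds
      filter_upwards [eventually_ge_atTop 1] with n hn
      have h1 : (n : ℂ) ≠ 0 := by exact_mod_cast (by omega : n ≠ 0)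
      have h2 : (ρ s : ℂ) ≠ 0 := by exact_mod_cast (hρ s).ne'
      field_simp
    · rw [if_neg he]
      rw [tendsto_zero_iff_norm_tendsto_zero]
      have hbound : ∃ g : ℕ → ℝ, Tendsto g atTop (𝓝 0) ∧ ∀ᶠ n : ℕ in atTop,
          ‖c s * (n : ℂ) ^ a s * (ρ s : ℂ) ^ n / ((n : ℂ) ^ a s₀ * (ρ s₀ : ℂ) ^ n)‖ ≤ ‖c s‖ * g n := by
        rcases lt_or_eq_of_le (hρmax s hs hcs) with hlt | heq
        · have hr : |ρ s / ρ s₀| < 1 := by
            rw [abs_of_pos (div_pos (hρ s) (hρ s₀)), div_lt_one (hρ s₀)]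
            exact hlt
          refine ⟨_, tendsto_pow_const_mul_const_pow_of_abs_lt_one (a s) hr, ?_⟩
          filter_upwards [eventually_ge_atTop 1] with n hn
          have hn1 : (1 : ℝ) ≤ n := by exact_mod_cast hn
          rw [norm_div, norm_mul, norm_mul, norm_mul, norm_pow, norm_pow, norm_pow, norm_pow, Complex.norm_natCast,
            Complex.norm_real, Complex.norm_real, Real.norm_eq_abs, Real.norm_eq_abs, abs_of_pos (hρ s),
            abs_of_pos (hρ s₀), div_pow, mul_assoc, mul_div_assoc]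
          refine mul_le_mul_of_nonneg_left ?_ (norm_nonneg _)
          have h3 : (n : ℝ) ^ a s * ρ s ^ n / ((n : ℝ) ^ a s₀ * ρ s₀ ^ n) =
              (n : ℝ) ^ a s * (ρ s ^ n / ρ s₀ ^ n) / (n : ℝ) ^ a s₀ := by
            field_simp
          rw [h3]
          refine div_le_self ?_ (one_le_pow₀ hn1)
          have := hρ s
          have := hρ s₀
          positivity
        · have hlt : a s < a s₀ := by
            refine lt_of_le_of_ne (hamax s hs hcs heq) fun h => ?_
            exact he (hinj s hs s₀ hs₀S h heq)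
          have hr : Tendsto (fun n : ℕ => (1 : ℝ) / n) atTop (𝓝 0) := tendsto_one_div_atTop_nhds_zero_nat
          refine ⟨_, hr, ?_⟩
          filter_upwards [eventually_ge_atTop 1] with n hn
          have hn1 : (1 : ℝ) ≤ n := by exact_mod_cast hn
          rw [norm_div, norm_mul, norm_mul, norm_mul, norm_pow, norm_pow, norm_pow, norm_pow, Complex.norm_natCast,
            Complex.norm_real, Complex.norm_real, Real.norm_eq_abs, Real.norm_eq_abs, abs_of_pos (hρ s),
            abs_of_pos (hρ s₀), heq, mul_assoc, mul_div_assoc]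
          refine mul_le_mul_of_nonneg_left ?_ (norm_nonneg _)
          have h4 := hρ s₀
          rw [mul_div_mul_right _ _ (pow_pos h4 n).ne', div_le_div_iff₀ (by positivity) (by linarith), one_mul]
          calc (n : ℝ) ^ a s * n = (n : ℝ) ^ (a s + 1) := (pow_succ _ _).symm
            _ ≤ (n : ℝ) ^ a s₀ := pow_le_pow_right₀ hn1 hlt
      obtain ⟨g, hg, hg'⟩ := hbound
      have h5 : Tendsto (fun n => ‖c s‖ * g n) atTop (𝓝 0) := by
        have := hg.const_mul ‖c s‖
        rwa [mul_zero] at this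
      exact squeeze_zero' (Eventually.of_forall fun n => norm_nonneg _) hg' h5
  have hzero : (fun n : ℕ => ∑ s ∈ S, c s * (n : ℂ) ^ a s * (ρ s : ℂ) ^ n / ((n : ℂ) ^ a s₀ * (ρ s₀ : ℂ) ^ n)) =ᶠ[atTop]
      fun _ => 0 := by
    filter_upwards [eventually_ge_atTop 1] with n hn
    rw [← Finset.sum_div, h n hn, zero_div]
  have h6 := tendsto_nhds_unique (hlim.congr' hzero) tendsto_const_nhds
  rw [Finset.sum_ite_eq' S s₀, if_pos hs₀S] at h6
  exact hc₀ h6

section
variable {k : ℕ} (b : Fin k → ℝ)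

/-- `ζ(t)` and `b_i ^ t` -/
noncomputable def ZF (y : Option (Fin k)) (t : ℂ) : ℂ := y.elim (riemannZeta t) fun i => (b i : ℂ) ^ t

lemma ZF_an (hb : ∀ i, 0 < b i) (y : Option (Fin k)) {t : ℂ} (ht : t ≠ 1) : AnalyticAt ℂ (ZF b y) t := by
  cases y with
  | none =>
    have h1 : DifferentiableOn ℂ riemannZeta {1}ᶜ := fun s hs => (differentiableAt_riemannZeta hs).differentiableWithinAt
    exact (h1.analyticOnNhd isOpen_compl_singleton) t ht
  | some i =>
    have h1 : (ZF b (some i)) = fun t => Complex.exp (Complex.log (b i) * t) := by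
      funext t
      change (b i : ℂ) ^ t = _
      rw [Complex.cpow_def_of_ne_zero (by exact_mod_cast (hb i).ne')]
    rw [h1]
    fun_prop

/-- independence -/
theorem zeta_locInd (hb : ∀ i, 0 < b i) (hind : ∀ e : Fin k → ℤ, ∏ i, b i ^ e i = 1 → e = 0) (t0 : ℂ) (ht0 : t0 ≠ 1) :
    Pool.Agent.Y124.LocInd (ZF b) t0 := by
  classical
  set Ω : Set ℂ := {1}ᶜ with hΩ
  have hΩc : IsPreconnected Ω :=
    (isConnected_compl_singleton_of_one_lt_rank (by rw [Complex.rank_real_complex]; norm_num) (1 : ℂ)).isPreconnected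
  refine Pool.Agent.Y771.RP.locInd_of (ZF b) Ω hΩc (fun y t ht => ZF_an b hb y ht) ?_ t0 ht0
  intro P hP
  by_contra hP0
  have hne : P.support.Nonempty := by
    rw [Finset.nonempty_iff_ne_empty]
    intro h
    exact hP0 (MvPolynomial.support_eq_empty.1 h)
  -- the smallest exponent of zeta
  obtain ⟨s₁, hs₁, hmin⟩ := Finset.exists_min_image P.support (fun s => s (some none)) hne
  set j := s₁ (some none) with hj
  set S0 := P.support.filter fun s => s (some none) = j with hS0
  have hs₁0 : s₁ ∈ S0 := Finset.mem_filter.2 ⟨hs₁, rfl⟩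
  -- the value of the reduced polynomial at the trivial zeros
  have key : ∀ n : ℕ, ∑ s ∈ S0, P.coeff s * ((-2 * ((n : ℂ) + 1)) ^ s none *
      ∏ i, ((b i : ℂ) ^ (-2 * ((n : ℂ) + 1))) ^ s (some (some i))) = 0 := by
    intro n
    set w : ℂ := -2 * ((n : ℂ) + 1) with hw
    have hw1 : w ≠ 1 := by
      intro h
      have h1 := congrArg Complex.re h
      rw [hw] at h1
      simp at h1
      have h2 : (0 : ℝ) ≤ n := Nat.cast_nonneg n
      linarith
    have hzw : riemannZeta w = 0 := riemannZeta_neg_two_mul_nat_add_one n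
    have hzan : AnalyticAt ℂ riemannZeta w := ZF_an b hb none hw1
    have hzne : ∀ᶠ z in 𝓝[≠] w, riemannZeta z ≠ 0 := by
      rcases hzan.eventually_eq_zero_or_eventually_ne_zero with h | h
      · exfalso
        have h1 : AnalyticOnNhd ℂ riemannZeta Ω := fun t ht => ZF_an b hb none ht
        have h2 := h1.eqOn_zero_of_preconnected_of_eventuallyEq_zero hΩc hw1 h
        have h3 : (2 : ℂ) ∈ Ω := by
          rw [hΩ]
          simp
        exact riemannZeta_ne_zero_of_one_lt_re (s := 2) (by simp) (h2 h3)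
      · exact h
    have hΩn : ∀ᶠ z in 𝓝[≠] w, z ∈ Ω := (isOpen_compl_singleton.mem_nhds hw1 : Ω ∈ 𝓝 w) |> mem_nhdsWithin_of_mem_nhds
    -- the reduced function
    set G : ℂ → ℂ := fun z => ∑ s ∈ P.support, P.coeff s * (z ^ s none * riemannZeta z ^ (s (some none) - j) *
      ∏ i, ((b i : ℂ) ^ z) ^ s (some (some i))) with hG
    have hGc : ContinuousAt G w := by
      have h1 : ContinuousAt riemannZeta w := hzan.continuousAt
      have h2 : ∀ i, ContinuousAt (fun z : ℂ => (b i : ℂ) ^ z) w := fun i => (ZF_an b hb (some i) hw1).continuousAt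
      refine tendsto_finsetSum _ fun s _ => ?_
      have h3 : ContinuousAt (fun z : ℂ => ∏ i, ((b i : ℂ) ^ z) ^ s (some (some i))) w :=
        tendsto_finsetProd _ fun i _ => (h2 i).pow _
      exact continuousAt_const.mul (((continuousAt_id.pow _).mul (h1.pow _)).mul h3)
    have hG0 : ∀ᶠ z in 𝓝[≠] w, G z = 0 := by
      filter_upwards [hzne, hΩn] with z h1 h2
      have h3 := hP z h2
      rw [MvPolynomial.eval_eq'] at h3
      simp only [Fintype.prod_option, Option.elim, ZF] at h3
      apply mul_left_cancel₀ (pow_ne_zero j h1)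
      rw [mul_zero, ← h3, hG, Finset.mul_sum]
      refine Finset.sum_congr rfl fun s hs => ?_
      have h4 : riemannZeta z ^ s (some none) = riemannZeta z ^ j * riemannZeta z ^ (s (some none) - j) := by
        rw [← pow_add, Nat.add_sub_cancel' (hmin s hs)]
      rw [h4]
      ring
    have hGw : G w = 0 := by
      have h1 := hGc.tendsto.mono_left (nhdsWithin_le_nhds (s := {w}ᶜ))
      exact tendsto_nhds_unique (h1.congr' hG0) tendsto_const_nhds
    rw [hG] at hGw
    simp only [hzw] at hGw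
    rw [← hGw, hS0, Finset.sum_filter]
    refine Finset.sum_congr rfl fun s hs => ?_
    split_ifs with h
    · rw [h, Nat.sub_self, pow_zero, mul_one]
    · have h1 : s (some none) - j ≠ 0 := by
        have := hmin s hs
        omega
      rw [zero_pow h1]
      ring
  -- the exponential polynomial
  set ρ : (Option (Option (Fin k)) →₀ ℕ) → ℝ := fun s => (∏ i, b i ^ s (some (some i))) ^ (-2 : ℤ) with hρ
  have hB : ∀ s : Option (Option (Fin k)) →₀ ℕ, 0 < ∏ i, b i ^ s (some (some i)) := fun s =>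
    Finset.prod_pos fun i _ => pow_pos (hb i) _
  have hρp : ∀ s, 0 < ρ s := fun s => zpow_pos (hB s) _
  have h1 := exp_poly S0 (fun s => s none) ρ hρp (by
    intro s hs s' hs' h1 h2
    have h3 : s (some none) = s' (some none) := (Finset.mem_filter.1 hs).2.trans (Finset.mem_filter.1 hs').2.symm
    have h4 : ∏ i, b i ^ s (some (some i)) = ∏ i, b i ^ s' (some (some i)) := by
      have h5 : (∏ i, b i ^ s (some (some i))) ^ 2 = (∏ i, b i ^ s' (some (some i))) ^ 2 := by
        have h6 : ρ s = ((∏ i, b i ^ s (some (some i))) ^ 2)⁻¹ := by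
          rw [hρ]
          simp only
          rw [zpow_neg]
          norm_cast
        have h7 : ρ s' = ((∏ i, b i ^ s' (some (some i))) ^ 2)⁻¹ := by
          rw [hρ]
          simp only
          rw [zpow_neg]
          norm_cast
        rw [h6, h7] at h2
        exact inv_injective h2
      exact (pow_left_inj₀ (hB s).le (hB s').le two_ne_zero).1 h5
    have h5 : (fun i => (s (some (some i)) : ℤ) - s' (some (some i))) = 0 := by
      apply hind
      have h6 : ∏ i, b i ^ ((s (some (some i)) : ℤ) - s' (some (some i))) =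
          (∏ i, b i ^ s (some (some i))) / ∏ i, b i ^ s' (some (some i)) := by
        rw [← Finset.prod_div_distrib]
        refine Finset.prod_congr rfl fun i _ => ?_
        rw [zpow_sub₀ (hb i).ne', zpow_natCast, zpow_natCast]
      rw [h6, h4, div_self (hB s').ne']
    ext o
    rcases o with _ | _ | i
    · exact h1
    · exact h3
    · have h6 := congrFun h5 i
      simp only [Pi.zero_apply] at h6
      omega) (fun s => P.coeff s * (-2) ^ s none) (by
    intro n hn
    have h2 := key (n - 1)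
    have h3 : (((n - 1 : ℕ) : ℂ) + 1) = n := by
      have : ((n - 1 : ℕ) : ℂ) = (n : ℂ) - 1 := by
        rw [Nat.cast_sub hn, Nat.cast_one]
      rw [this]
      ring
    rw [h3] at h2
    rw [← h2]
    refine Finset.sum_congr rfl fun s _ => ?_
    have h4 : ∏ i, ((b i : ℂ) ^ (-2 * (n : ℂ))) ^ s (some (some i)) = (ρ s : ℂ) ^ n := by
      have h5 : ∀ i, ((b i : ℂ) ^ (-2 * (n : ℂ))) = ((b i : ℂ) ^ (2 * n : ℕ))⁻¹ := by
        intro i
        have h6 : (-2 * (n : ℂ)) = -((2 * n : ℕ) : ℂ) := by push_cast; ring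
        rw [h6, Complex.cpow_neg, Complex.cpow_natCast]
      simp only [h5]
      rw [hρ]
      push_cast
      rw [zpow_neg, inv_pow]
      have h7 : ∏ i, ((((b i : ℂ) ^ (2 * n)))⁻¹) ^ s (some (some i)) =
          (∏ i, ((b i : ℂ) ^ (2 * n)) ^ s (some (some i)))⁻¹ := by
        rw [← Finset.prod_inv_distrib]
        exact Finset.prod_congr rfl fun i _ => inv_pow _ _
      rw [h7]
      congr 1
      have h8 : ∀ x : ℂ, (x ^ (2 : ℤ)) ^ n = x ^ (2 * n) := by
        intro x
        rw [pow_mul]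
        norm_cast
      rw [h8, ← Finset.prod_pow]
      refine Finset.prod_congr rfl fun i _ => ?_
      rw [← pow_mul, ← pow_mul, mul_comm]
    rw [h4, mul_pow]
    ring)
  have h2 := h1 s₁ hs₁0
  rcases mul_eq_zero.1 h2 with h3 | h3
  · exact MvPolynomial.mem_support_iff.1 hs₁ h3
  · exact pow_ne_zero _ (by norm_num) h3

end

end Pool.Agent.K7.H63.HO
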